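import Pool.Agent.MP_278f54_co.H42.Stieltjes

/-!
The one dimensional comparison: the sequences `N_j`, `D_j` attached to the regular simplex and
the comparison with an arbitrary larger apex.
-/

open MeasureTheory Set
open scoped ENNReal NNReal

namespace Pool.Agent.MP_278f54_co.H42

/-- Squared circumradius of the regular `j`-simplex of edge length two. -/
noncomputable def astar (j : ℕ) : ℝ := 2 * (j : ℝ) / ((j : ℝ) + 1)

lemma astar_zero : astar 0 = 0 := by simp [astar]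

lemma astar_lt_succ (j : ℕ) : astar j < astar (j + 1) := by
  unfold astar
  push_cast
  rw [div_lt_div_iff₀ (by positivity) (by positivity)]
  nlinarith

lemma astar_strictMono : StrictMono astar := strictMono_nat_of_lt_succ astar_lt_succ

lemma astar_one : astar 1 = 1 := by norm_num [astar]

lemma one_le_astar {j : ℕ} (hj : 1 ≤ j) : 1 ≤ astar j := by
  rw [← astar_one]; exact astar_strictMono.monotone hj

lemma astar_lt_two (j : ℕ) : astar j < 2 := by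
  unfold astar
  rw [div_lt_iff₀ (by positivity)]
  linarith

lemma astar_nonneg (j : ℕ) : 0 ≤ astar j := by unfold astar; positivity

/-- Iterates of the cone operator along the regular simplex. -/
noncomputable def sq (d : ℕ) (f : ℝ → ℝ≥0∞) : ℕ → ℝ → ℝ≥0∞
  | 0 => f
  | j + 1 => Tm (d - 1 - j) (astar j) (sq d f j)

lemma sq_succ {d j k : ℕ} (h : d = j + k + 1) (f : ℝ → ℝ≥0∞) :
    sq d f (j + 1) = Tm k (astar j) (sq d f j) := by
  have : d - 1 - j = k := by omega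
  rw [sq, this]

lemma measurable_sq (d : ℕ) {f : ℝ → ℝ≥0∞} (hf : Measurable f) (j : ℕ) :
    Measurable (sq d f j) := by
  induction j with
  | zero => exact hf
  | succ j ih => exact measurable_Tm _ _ ih

lemma sq_le_one (d : ℕ) {f : ℝ → ℝ≥0∞} (hf : ∀ y, f y ≤ 1) (j : ℕ) (y : ℝ) :
    sq d f j y ≤ 1 := by
  induction j generalizing y with
  | zero => exact hf y
  | succ j ih => exact Tm_le_one _ _ ih y

/-- Indicator of the large ball, as a function of the squared norm. -/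
noncomputable def N0 (ρ : ℝ) : ℝ → ℝ≥0∞ := (Iic ρ).indicator 1

/-- Indicator of the open unit ball, as a function of the squared norm. -/
noncomputable def D0 : ℝ → ℝ≥0∞ := (Iio 1).indicator 1

lemma measurable_N0 (ρ : ℝ) : Measurable (N0 ρ) := measurable_one.indicator measurableSet_Iic

lemma measurable_D0 : Measurable D0 := measurable_one.indicator measurableSet_Iio

lemma N0_le_one (ρ y : ℝ) : N0 ρ y ≤ 1 := by
  unfold N0; by_cases h : y ∈ Iic ρ <;> simp [h]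

lemma D0_le_one (y : ℝ) : D0 y ≤ 1 := by
  unfold D0; by_cases h : y ∈ Iio (1 : ℝ) <;> simp [h]

lemma ratio_mono {ρ : ℝ} (hρ : 1 ≤ ρ) (d j : ℕ) : ∀ y y', astar j ≤ y → y ≤ y' →
    sq d (N0 ρ) j y * sq d D0 j y' ≤ sq d (N0 ρ) j y' * sq d D0 j y := by
  induction j with
  | zero =>
    intro y y' _ hyy
    simp only [sq, N0, D0]
    by_cases h : y' < 1
    · have h1 : y < 1 := lt_of_le_of_lt hyy h
      have h2 : y ≤ ρ := by linarith
      have h3 : y' ≤ ρ := by linarith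
      simp [h, h1, h2, h3]
    · simp [h]
  | succ j ih =>
    intro y y' hy hyy
    exact Tm_ratio_mono _ (measurable_sq d (measurable_N0 ρ) j) (measurable_sq d measurable_D0 j)
      ih (lt_of_lt_of_le (astar_lt_succ j) hy) hyy

lemma lintegral_pow_Ioo (k : ℕ) {θ : ℝ} (hθ : 0 ≤ θ) :
    ∫⁻ τ in Ioo (0 : ℝ) θ, ENNReal.ofReal (τ ^ k) = ENNReal.ofReal (θ ^ (k + 1) / (k + 1)) := by
  rw [Measure.restrict_congr_set Ioo_ae_eq_Ioc,
    ← ofReal_integral_eq_lintegral_ofReal (intervalIntegral.intervalIntegrable_pow _).1,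
    ← intervalIntegral.integral_of_le hθ]
  · simp
  · filter_upwards [ae_restrict_mem measurableSet_Ioc] with y hy
    exact pow_nonneg hy.1.le _

lemma St_first (k : ℕ) : St ((k + 1) / 2) (Tm k 0 D0) := by
  refine ⟨(ENNReal.ofReal (1 / (k + 1))) • Measure.dirac 0, inferInstance, fun y hy => ?_⟩
  rw [lintegral_smul_measure, lintegral_dirac]
  have hy0 : 0 < y := by linarith
  set θ : ℝ := y ^ (-(1 / 2 : ℝ)) with hθ
  have hθ0 : 0 < θ := Real.rpow_pos_of_pos hy0 _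
  have hθ1 : θ ≤ 1 := Real.rpow_le_one_of_one_le_of_nonpos hy (by norm_num)
  have hθ2 : θ ^ 2 * y = 1 := by
    rw [hθ, ← Real.rpow_natCast, ← Real.rpow_mul hy0.le, ← Real.rpow_add_one hy0.ne']
    norm_num
  have e1 : Tm k 0 D0 y = ∫⁻ τ in Ioo (0 : ℝ) θ, ENNReal.ofReal (τ ^ k) := by
    unfold Tm
    have : ∀ τ ∈ Ioo (0 : ℝ) 1, ENNReal.ofReal (τ ^ k) * D0 (0 + τ ^ 2 * (y - 0))
        = (Iio θ).indicator (fun τ => ENNReal.ofReal (τ ^ k)) τ := by
      intro τ hτ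
      unfold D0
      by_cases h : τ < θ
      · have : τ ^ 2 * y < 1 := by
          rw [← hθ2]
          exact mul_lt_mul_of_pos_right (pow_lt_pow_left₀ h hτ.1.le (by norm_num)) hy0
        simp [h, this]
      · have : ¬ τ ^ 2 * y < 1 := by
          rw [← hθ2, not_lt]
          exact mul_le_mul_of_nonneg_right (pow_le_pow_left₀ hθ0.le (not_lt.1 h) 2) hy0.le
        simp [h, this]
    rw [setLIntegral_congr_fun measurableSet_Ioo this, lintegral_indicator measurableSet_Iio,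
      Measure.restrict_restrict measurableSet_Iio]
    congr 2
    ext τ
    simp only [mem_Ioo, mem_inter_iff, mem_Iio]
    constructor
    · rintro ⟨h0, h1, _⟩; exact ⟨h1, h0⟩
    · rintro ⟨h0, h1⟩; exact ⟨h1, h0, lt_of_lt_of_le h1 hθ1⟩
  rw [e1, lintegral_pow_Ioo k hθ0.le, smul_eq_mul, ker,
    ← ENNReal.ofReal_mul (by positivity)]
  congr 1
  rw [hθ, ← Real.rpow_natCast, ← Real.rpow_mul hy0.le]
  have : (-(1 / 2 : ℝ)) * ((k + 1 : ℕ) : ℝ) = -(((k : ℝ) + 1) / 2) := by push_cast; ring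
  rw [this]
  simp only [NNReal.coe_zero, add_zero]
  ring

lemma St_D {d : ℕ} : ∀ j k : ℕ, d = j + 1 + k + 1 → St ((k + 3) / 2) (sq d D0 (j + 1)) := by
  intro j
  induction j with
  | zero =>
    intro k hd
    rw [sq_succ (k := k + 1) (by omega), astar_zero]
    have h1 := (St_first (k + 1)).lift (by
      have : (0 : ℝ) ≤ (k : ℝ) := Nat.cast_nonneg k
      push_cast; linarith)
    convert h1 using 1
    · push_cast; ring
    · rfl
  | succ j ih =>
    intro k hd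
    have h0 := ih (k + 1) (by omega)
    rw [sq_succ (k := k + 1) (by omega)]
    have h1 := (St.Tm (k := k + 1) h0 (one_le_astar (j := j + 1) (by omega))).lift (by
      have : (0 : ℝ) ≤ (k : ℝ) := Nat.cast_nonneg k
      push_cast; linarith)
    convert h1 using 1
    push_cast; ring

lemma Tm_ne_zero (k : ℕ) {a z : ℝ} {f : ℝ → ℝ≥0∞} (hf : Measurable f) {θ : ℝ} (hθ : 0 < θ)
    (hθ1 : θ ≤ 1) (h : ∀ τ ∈ Ioo (0 : ℝ) θ, f (a + τ ^ 2 * (z - a)) ≠ 0) : Tm k a f z ≠ 0 := by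
  unfold Tm
  rw [← pos_iff_ne_zero, setLIntegral_pos_iff (measurable_Tm_integrand k a z hf)]
  refine lt_of_lt_of_le ?_ (measure_mono (s := Ioo (0 : ℝ) θ) ?_)
  · simpa using hθ
  · intro τ hτ
    refine ⟨?_, hτ.1, lt_of_lt_of_le hτ.2 hθ1⟩
    simp only [Function.mem_support]
    refine mul_ne_zero ?_ (h τ hτ)
    simp only [ne_eq, ENNReal.ofReal_eq_zero, not_le]
    exact pow_pos hτ.1 _

lemma D_ne_zero (d j : ℕ) : ∀ y, 1 ≤ y → sq d D0 (j + 1) y ≠ 0 := by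
  induction j with
  | zero =>
    intro y hy
    have hy0 : 0 < y := by linarith
    refine Tm_ne_zero _ measurable_D0 (θ := 1 / y) (by positivity)
      ((div_le_one hy0).2 hy) ?_
    intro τ hτ
    have h1 : τ * y < 1 := (lt_div_iff₀ hy0).1 hτ.2
    have h2 : τ < 1 := by nlinarith [hτ.1]
    have h3 : τ ^ 2 * y < 1 := by nlinarith [hτ.1]
    simp [sq, D0, astar_zero, h3]
  | succ j ih =>
    intro y hy
    refine Tm_ne_zero _ (measurable_sq d measurable_D0 _) one_pos le_rfl ?_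
    intro τ hτ
    refine ih _ ?_
    have h1 : τ ^ 2 ≤ 1 := pow_le_one₀ hτ.1.le hτ.2.le
    have h0 : 0 ≤ τ ^ 2 := sq_nonneg τ
    have h2 := one_le_astar (j := j + 1) (by omega)
    nlinarith

lemma ne_top_of_le_one {x : ℝ≥0∞} (h : x ≤ 1) : x ≠ ⊤ := ne_top_of_le_ne_top ENNReal.one_ne_top h

/-- Raising the apex increases the ratio. -/
lemma Tm_apex_mono (k : ℕ) {γ : ℝ} (hγ : 0 ≤ γ) {N D : ℝ → ℝ≥0∞} (hN : Measurable N)
    (hD : Measurable D) (hN1 : ∀ y, N y ≤ 1) (hD1 : ∀ y, D y ≤ 1) (hSt : St γ D)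
    (hpos : ∀ y, 1 ≤ y → D y ≠ 0) {a a' z : ℝ} (ha : 1 ≤ a) (haa : a ≤ a') (hz : a' ≤ z)
    (h : ∀ y y', a ≤ y → y ≤ y' → N y * D y' ≤ N y' * D y) :
    Tm k a N z * Tm k a' D z ≤ Tm k a' N z * Tm k a D z := by
  unfold Tm
  refine lintegral_mul_le_of_two_point _ (measurable_Tm_integrand k a z hN)
    (measurable_Tm_integrand k a' z hD) (measurable_Tm_integrand k a' z hN)
    (measurable_Tm_integrand k a z hD) (ae_restrict_mem measurableSet_Ioo) ?_
  have main : ∀ x ∈ Ioo (0 : ℝ) 1, ∀ y ∈ Ioo (0 : ℝ) 1, x ≤ y →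
      D (a' + x ^ 2 * (z - a')) * N (a + y ^ 2 * (z - a)) +
        D (a' + y ^ 2 * (z - a')) * N (a + x ^ 2 * (z - a)) ≤
      N (a' + x ^ 2 * (z - a')) * D (a + y ^ 2 * (z - a)) +
        N (a' + y ^ 2 * (z - a')) * D (a + x ^ 2 * (z - a)) := by
    intro x hx y hy hxy
    have x0 : 0 ≤ x ^ 2 := sq_nonneg x
    have xy : x ^ 2 ≤ y ^ 2 := pow_le_pow_left₀ hx.1.le hxy 2
    have y1 : y ^ 2 ≤ 1 := pow_le_one₀ hy.1.le hy.2.le
    have q1 : a ≤ a + x ^ 2 * (z - a) := by nlinarith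
    have q2 : a ≤ a + y ^ 2 * (z - a) := by nlinarith
    have q3 : a + x ^ 2 * (z - a) ≤ a' + x ^ 2 * (z - a') := by nlinarith
    have q4 : a + y ^ 2 * (z - a) ≤ a' + y ^ 2 * (z - a') := by nlinarith
    have q5 : a + x ^ 2 * (z - a) ≤ a + y ^ 2 * (z - a) := by nlinarith
    refine star_ineq (ne_top_of_le_one (hN1 _)) (ne_top_of_le_one (hN1 _))
      (ne_top_of_le_one (hD1 _)) (ne_top_of_le_one (hD1 _)) (ne_top_of_le_one (hN1 _))
      (ne_top_of_le_one (hN1 _)) (ne_top_of_le_one (hD1 _)) (ne_top_of_le_one (hD1 _))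
      (hpos _ (by linarith)) (hpos _ (by linarith)) (h _ _ q1 q3) (h _ _ q2 q4) (h _ _ q1 q5) ?_
    rw [mul_comm (D (a' + y ^ 2 * (z - a')))]
    exact hSt.logconvex hγ (by linarith) (by linarith) q3 q5 (by nlinarith)
  intro x hx y hy
  rcases le_total x y with hxy | hxy
  · calc _ = (ENNReal.ofReal (x ^ k) * ENNReal.ofReal (y ^ k)) *
          (D (a' + x ^ 2 * (z - a')) * N (a + y ^ 2 * (z - a)) +
            D (a' + y ^ 2 * (z - a')) * N (a + x ^ 2 * (z - a))) := by ring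
      _ ≤ (ENNReal.ofReal (x ^ k) * ENNReal.ofReal (y ^ k)) *
          (N (a' + x ^ 2 * (z - a')) * D (a + y ^ 2 * (z - a)) +
            N (a' + y ^ 2 * (z - a')) * D (a + x ^ 2 * (z - a))) :=
          mul_le_mul_right (main x hx y hy hxy) _
      _ = _ := by ring
  · calc _ = (ENNReal.ofReal (x ^ k) * ENNReal.ofReal (y ^ k)) *
          (D (a' + y ^ 2 * (z - a')) * N (a + x ^ 2 * (z - a)) +
            D (a' + x ^ 2 * (z - a')) * N (a + y ^ 2 * (z - a))) := by ring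
      _ ≤ (ENNReal.ofReal (x ^ k) * ENNReal.ofReal (y ^ k)) *
          (N (a' + y ^ 2 * (z - a')) * D (a + x ^ 2 * (z - a)) +
            N (a' + x ^ 2 * (z - a')) * D (a + y ^ 2 * (z - a))) :=
          mul_le_mul_right (main y hy x hx hxy) _
      _ = _ := by ring

lemma Tm_apex_anti (k : ℕ) {γ : ℝ} (hγ : 0 ≤ γ) {D : ℝ → ℝ≥0∞} (hSt : St γ D)
    {a a' z : ℝ} (ha : 1 ≤ a) (haa : a ≤ a') (hz : a' ≤ z) : Tm k a' D z ≤ Tm k a D z := by
  unfold Tm
  refine setLIntegral_mono' measurableSet_Ioo fun x hx => ?_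
  have x0 : 0 ≤ x ^ 2 := sq_nonneg x
  have x1 : x ^ 2 ≤ 1 := pow_le_one₀ hx.1.le hx.2.le
  exact mul_le_mul_right (hSt.anti hγ (by nlinarith) (by nlinarith)) _

section Key

variable {ρ : ℝ} (hρ : 1 ≤ ρ) {d j k : ℕ} (hd : d = j + k + 1) {a : ℝ} (ha : astar j ≤ a)
  (h0 : j = 0 → a = 0)

include hρ hd ha h0

lemma key_i {z : ℝ} (hz : a ≤ z) :
    sq d (N0 ρ) (j + 1) z * Tm k a (sq d D0 j) z
      ≤ Tm k a (sq d (N0 ρ) j) z * sq d D0 (j + 1) z := by
  rw [sq_succ hd, sq_succ hd]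
  rcases j with _ | j
  · rw [h0 rfl, astar_zero]
  · exact Tm_apex_mono k (γ := (k + 3) / 2) (by positivity) (measurable_sq d (measurable_N0 ρ) _)
      (measurable_sq d measurable_D0 _) (sq_le_one d (N0_le_one ρ) _) (sq_le_one d D0_le_one _)
      (St_D j k hd) (D_ne_zero d j) (one_le_astar (by omega)) ha hz (ratio_mono hρ d _)

omit hρ in
lemma key_iii {z z' : ℝ} (hz : 1 ≤ z) (hzz : z ≤ z') :
    Tm k a (sq d D0 j) z * sq d D0 (j + 1) z' ≤ Tm k a (sq d D0 j) z' * sq d D0 (j + 1) z := by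
  rw [sq_succ hd]
  rcases j with _ | j
  · rw [h0 rfl, astar_zero, mul_comm]
  · exact (St_D j k hd).Tm_tp2 (one_le_astar (by omega)) ha hz hzz

omit hρ in
lemma key_anti {z : ℝ} (hz : a ≤ z) : Tm k a (sq d D0 j) z ≤ sq d D0 (j + 1) z := by
  rw [sq_succ hd]
  rcases j with _ | j
  · rw [h0 rfl, astar_zero]
  · exact Tm_apex_anti k (γ := (k + 3) / 2) (by positivity) (St_D j k hd)
      (one_le_astar (by omega)) ha hz

lemma key_star {z z' : ℝ} (hz : a ≤ z) (hz1 : astar (j + 1) ≤ z) (hzz : z ≤ z') :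
    Tm k a (sq d D0 j) z * sq d (N0 ρ) (j + 1) z' + Tm k a (sq d D0 j) z' * sq d (N0 ρ) (j + 1) z
      ≤ Tm k a (sq d (N0 ρ) j) z * sq d D0 (j + 1) z'
        + Tm k a (sq d (N0 ρ) j) z' * sq d D0 (j + 1) z := by
  have h1 : 1 ≤ z := (one_le_astar (by omega)).trans hz1
  have tN := fun z => ne_top_of_le_one (Tm_le_one k a (sq_le_one d (N0_le_one ρ) j) z)
  have tD := fun z => ne_top_of_le_one (Tm_le_one k a (sq_le_one d D0_le_one j) z)
  have sN := fun z => ne_top_of_le_one (sq_le_one d (N0_le_one ρ) (j + 1) z)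
  have sD := fun z => ne_top_of_le_one (sq_le_one d D0_le_one (j + 1) z)
  exact star_ineq (tN _) (tN _) (tD _) (tD _) (sN _) (sN _) (sD _) (sD _)
    (D_ne_zero d j _ h1) (D_ne_zero d j _ (by linarith)) (key_i hρ hd ha h0 hz)
    (key_i hρ hd ha h0 (by linarith)) (ratio_mono hρ d _ _ _ hz1 hzz) (key_iii hd ha h0 h1 hzz)

/-- Integrated comparison on a facet. -/
lemma key_int {α : Type*} [MeasurableSpace α] (μ : Measure α) [IsFiniteMeasure μ] {φ : α → ℝ}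
    (hφ : Measurable φ) (hφa : ∀ᵐ x ∂μ, a ≤ φ x ∧ astar (j + 1) ≤ φ x) {P Q : ℝ≥0∞}
    (h : P * ∫⁻ x, sq d D0 (j + 1) (φ x) ∂μ ≤ Q * ∫⁻ x, sq d (N0 ρ) (j + 1) (φ x) ∂μ) :
    P * ∫⁻ x, Tm k a (sq d D0 j) (φ x) ∂μ ≤ Q * ∫⁻ x, Tm k a (sq d (N0 ρ) j) (φ x) ∂μ := by
  have mN := measurable_sq d (measurable_N0 ρ)
  have mD := measurable_sq d measurable_D0
  have h1 : (∫⁻ x, Tm k a (sq d D0 j) (φ x) ∂μ) * (∫⁻ x, sq d (N0 ρ) (j + 1) (φ x) ∂μ)
      ≤ (∫⁻ x, Tm k a (sq d (N0 ρ) j) (φ x) ∂μ) * ∫⁻ x, sq d D0 (j + 1) (φ x) ∂μ := by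
    refine lintegral_mul_le_of_two_point μ ((measurable_Tm k a (mD j)).comp hφ)
      ((mN _).comp hφ) ((measurable_Tm k a (mN j)).comp hφ) ((mD _).comp hφ)
      (s := {x | a ≤ φ x ∧ astar (j + 1) ≤ φ x}) hφa ?_
    intro x hx y hy
    rcases le_total (φ x) (φ y) with hxy | hxy
    · exact key_star hρ hd ha h0 hx.1 hx.2 hxy
    · have := key_star hρ hd ha h0 hy.1 hy.2 hxy
      rw [add_comm, add_comm (Tm k a (sq d (N0 ρ) j) (φ y) * _)] at this
      exact this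
  have h2 : ∫⁻ x, Tm k a (sq d D0 j) (φ x) ∂μ ≤ ∫⁻ x, sq d D0 (j + 1) (φ x) ∂μ := by
    refine lintegral_mono_ae ?_
    filter_upwards [hφa] with x hx
    exact key_anti hd ha h0 hx.1
  have h3 : ∫⁻ x, sq d D0 (j + 1) (φ x) ∂μ ≠ ⊤ := by
    refine ne_top_of_le_ne_top (b := ∫⁻ _x, 1 ∂μ) (by simp) ?_
    exact lintegral_mono fun x => sq_le_one d D0_le_one _ _
  by_cases h4 : ∫⁻ x, sq d D0 (j + 1) (φ x) ∂μ = 0
  · rw [h4] at h2
    rw [le_antisymm h2 zero_le]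
    simp
  · rw [← ENNReal.mul_le_mul_iff_left h4 h3]
    calc P * (∫⁻ x, Tm k a (sq d D0 j) (φ x) ∂μ) * ∫⁻ x, sq d D0 (j + 1) (φ x) ∂μ
        = (P * ∫⁻ x, sq d D0 (j + 1) (φ x) ∂μ) * ∫⁻ x, Tm k a (sq d D0 j) (φ x) ∂μ := by ring
      _ ≤ (Q * ∫⁻ x, sq d (N0 ρ) (j + 1) (φ x) ∂μ) * ∫⁻ x, Tm k a (sq d D0 j) (φ x) ∂μ := by
          gcongr
      _ = Q * ((∫⁻ x, Tm k a (sq d D0 j) (φ x) ∂μ) * ∫⁻ x, sq d (N0 ρ) (j + 1) (φ x) ∂μ) := by
          ring
      _ ≤ Q * ((∫⁻ x, Tm k a (sq d (N0 ρ) j) (φ x) ∂μ) * ∫⁻ x, sq d D0 (j + 1) (φ x) ∂μ) := by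
          gcongr
      _ = _ := by ring

end Key

/-- At a fixed point, the ratio decreases along the levels. -/
lemma level_step {ρ : ℝ} (hρ : 1 ≤ ρ) (d j : ℕ) {z : ℝ} (hz : astar j ≤ z) :
    sq d (N0 ρ) (j + 1) z * sq d D0 j z ≤ sq d (N0 ρ) j z * sq d D0 (j + 1) z := by
  have mN := measurable_sq d (measurable_N0 ρ) j
  have mD := measurable_sq d measurable_D0 j
  simp only [sq, Tm]
  rw [← lintegral_mul_const _ (measurable_Tm_integrand _ _ _ mN),
    ← lintegral_const_mul _ (measurable_Tm_integrand _ _ _ mD)]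
  refine setLIntegral_mono' measurableSet_Ioo fun x hx => ?_
  have x0 : 0 ≤ x ^ 2 := sq_nonneg x
  have x1 : x ^ 2 ≤ 1 := pow_le_one₀ hx.1.le hx.2.le
  have := ratio_mono hρ d j (astar j + x ^ 2 * (z - astar j)) z (by nlinarith) (by nlinarith)
  calc _ = ENNReal.ofReal (x ^ (d - 1 - j)) *
        (sq d (N0 ρ) j (astar j + x ^ 2 * (z - astar j)) * sq d D0 j z) := by ring
    _ ≤ ENNReal.ofReal (x ^ (d - 1 - j)) *
        (sq d (N0 ρ) j z * sq d D0 j (astar j + x ^ 2 * (z - astar j))) := by gcongr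
    _ = _ := by ring

lemma cross_trans {n1 n2 n3 d1 d2 d3 : ℝ≥0∞} (h0 : d2 ≠ 0) (ht : d2 ≠ ⊤)
    (h1 : n1 * d2 ≤ n2 * d1) (h2 : n2 * d3 ≤ n3 * d2) : n1 * d3 ≤ n3 * d1 := by
  rw [← ENNReal.mul_le_mul_iff_left h0 ht]
  calc n1 * d3 * d2 = (n1 * d2) * d3 := by ring
    _ ≤ (n2 * d1) * d3 := by gcongr
    _ = (n2 * d3) * d1 := by ring
    _ ≤ (n3 * d2) * d1 := by gcongr
    _ = _ := by ring

lemma level_chain {ρ : ℝ} (hρ : 1 ≤ ρ) (d j : ℕ) {z : ℝ} :
    ∀ k : ℕ, astar (j + k + 1) ≤ z →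
      sq d (N0 ρ) (j + k + 1) z * sq d D0 (j + 1) z
        ≤ sq d (N0 ρ) (j + 1) z * sq d D0 (j + k + 1) z := by
  intro k
  induction k with
  | zero => intro _; exact le_rfl
  | succ k ih =>
    intro hz
    have hz' : astar (j + k + 1) ≤ z := (astar_lt_succ _).le.trans hz
    have h1 : 1 ≤ z := (one_le_astar (by omega)).trans hz'
    exact cross_trans (D_ne_zero d (j + k) z h1) (ne_top_of_le_one (sq_le_one d D0_le_one _ _))
      (level_step hρ d (j + k + 1) hz') (ih hz')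

/-- Comparison on the spherical part. -/
lemma key_sphere {ρ : ℝ} (hρ : 1 ≤ ρ) {d j k : ℕ} (hd : d = j + k + 1) {a : ℝ} (ha : astar j ≤ a)
    (h0 : j = 0 → a = 0) (haA : a ≤ astar d) :
    sq d (N0 ρ) d (astar d) * Tm k a (sq d D0 j) (astar d)
      ≤ sq d D0 d (astar d) * Tm k a (sq d (N0 ρ) j) (astar d) := by
  have h1 : 1 ≤ astar d := one_le_astar (by omega)
  have h2 := level_chain hρ d j (z := astar d) k (by rw [← hd])
  rw [← hd] at h2
  rw [mul_comm (sq d D0 d (astar d))]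
  exact cross_trans (D_ne_zero d j _ h1) (ne_top_of_le_one (sq_le_one d D0_le_one _ _)) h2
    (key_i hρ hd ha h0 haA)

end Pool.Agent.MP_278f54_co.H42
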