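import Pool.Agent.MP_278f54_co.H42.State

/-!
The local bound for a Voronoi cell of a packing.
-/

open MeasureTheory Set
open scoped ENNReal NNReal RealInnerProductSpace

namespace Pool.Agent.MP_278f54_co.H42

lemma sqset_eq_ball {m : ℕ} {a A : ℝ} (_h : a < A) :
    {w : E m | a + ‖w‖ ^ 2 < A} = Metric.ball 0 (Real.sqrt (A - a)) := by
  ext w
  simp only [mem_ofPred_eq, mem_ball_zero_iff]
  rw [Real.lt_sqrt (norm_nonneg _)]
  constructor <;> intro h <;> linarith

theorem pack_ind {ρ : ℝ} (hρ : 1 ≤ ρ) {d : ℕ} {C : Finset (E d)} (hC : Pack C) :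
    ∀ (m j : ℕ), d = j + m → ∀ (σ : Finset (E d)) (v : E d) (ι : E m →ₗᵢ[ℝ] E d) (a : ℝ),
      Good C σ v ι a → σ.card = j + 1 → a < astar d →
      sq d (N0 ρ) d (astar d) *
          ∫⁻ w in Reg C σ v ι a ∩ {w | a + ‖w‖ ^ 2 < astar d}, sq d D0 j (a + ‖w‖ ^ 2)
        ≤ sq d D0 d (astar d) *
          ∫⁻ w in Reg C σ v ι a ∩ {w | a + ‖w‖ ^ 2 < astar d}, sq d (N0 ρ) j (a + ‖w‖ ^ 2) := by
  classical
  intro m
  induction m with
  | zero =>
    intro j hd σ v ι a G hcard ha
    have := G.astar_le hC hcard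
    rw [hd, add_zero] at ha
    exact absurd ha (not_lt.2 this)
  | succ m ih =>
    intro j hd σ v ι a G hcard ha
    have ha2 : a < 2 := ha.trans (astar_lt_two d)
    have haj : astar j ≤ a := G.astar_le hC hcard
    have h0 : j = 0 → a = 0 := fun h => G.a_eq_zero (by rw [hcard, h])
    have mN := measurable_sq d (measurable_N0 ρ)
    have mD := measurable_sq d measurable_D0
    set r := Real.sqrt (astar d - a) with hr
    have hr0 : 0 < r := Real.sqrt_pos.2 (by linarith)
    have hr2 : a + r ^ 2 = astar d := by rw [hr, Real.sq_sqrt (by linarith)]; ring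
    set Q := Qs C σ v ι a with hQ
    set K : Set (E (m + 1)) := {w | ∃ q ∈ Q, ‖w‖ < r * ⟪q, w⟫} with hK
    have hKm : MeasurableSet K := by
      have : K = ⋃ q ∈ Q, {w | ‖w‖ < r * ⟪q, w⟫} := by ext w; simp [hK]
      rw [this]
      exact Finset.measurableSet_biUnion _ fun q _ => measurableSet_lt (by fun_prop) (by fun_prop)
    have hKc : IsCone K := by
      intro t ht w
      simp only [hK, mem_ofPred_eq, norm_smul, Real.norm_of_nonneg ht.le, inner_smul_right,
        mul_left_comm r t, mul_lt_mul_iff_right₀ ht]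
    have hKc' : IsCone Kᶜ := fun t ht w => by simp only [mem_compl_iff, hKc t ht w]
    have hsplit : Reg C σ v ι a ∩ {w | a + ‖w‖ ^ 2 < astar d}
        = {w | w ∈ K ∧ ∀ q ∈ Q, ⟪q, w⟫ < 1} ∪ (Kᶜ ∩ Metric.ball 0 r) := by
      rw [sqset_eq_ball ha, ← hr]
      ext w
      simp only [mem_inter_iff, G.mem_Reg hC ha2, mem_ball_zero_iff, mem_union, mem_ofPred_eq,
        mem_compl_iff, ← hQ]
      constructor
      · rintro ⟨h1, h2⟩
        by_cases hw : w ∈ K
        · exact Or.inl ⟨hw, h1⟩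
        · exact Or.inr ⟨hw, h2⟩
      · rintro (⟨⟨q, hq, h1⟩, h2⟩ | ⟨h1, h2⟩)
        · refine ⟨h2, h1.trans ?_⟩
          have := h2 q hq
          nlinarith
        · refine ⟨fun q hq => ?_, h2⟩
          have h3 : r * ⟪q, w⟫ ≤ ‖w‖ := not_lt.1 fun h => h1 ⟨q, hq, h⟩
          by_contra h4
          push Not at h4
          nlinarith
    have hdisj : Disjoint {w | w ∈ K ∧ ∀ q ∈ Q, ⟪q, w⟫ < 1} (Kᶜ ∩ Metric.ball 0 r) := by
      rw [Set.disjoint_left]
      rintro w ⟨h1, _⟩ ⟨h2, _⟩
      exact h2 h1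
    have hpos : ∀ w ∈ K, w ≠ 0 → ∃ q ∈ Q, 0 < ⟪q, w⟫ := by
      rintro w ⟨q, hq, h1⟩ _
      exact ⟨q, hq, (mul_pos_iff_of_pos_left hr0).1 (lt_of_le_of_lt (norm_nonneg w) h1)⟩
    obtain ⟨cS, hcS⟩ := sphere_formula Kᶜ hKm.compl hKc' hr0
    rw [hsplit, lintegral_union (hKm.compl.inter measurableSet_ball) hdisj,
      lintegral_union (hKm.compl.inter measurableSet_ball) hdisj, region_decomp Q hKm hpos,
      region_decomp Q hKm hpos, hcS a _ (mN j), hcS a _ (mD j), hr2, mul_add, mul_add,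
      Finset.mul_sum, Finset.mul_sum]
    refine add_le_add (Finset.sum_le_sum fun q hq => ?_) ?_
    · by_cases hq0 : q = 0
      · have : pieceCone Q K q ∩ {w | 0 < ⟪q, w⟫ ∧ ⟪q, w⟫ < 1} = ∅ := by
          ext w; simp [hq0]
        rw [this]; simp
      obtain ⟨κ, h1, h2, h3⟩ := facet_formula q hq0
      obtain ⟨c, hc, hcσ, rfl⟩ := mem_Qs.1 hq
      set q := qv v ι a c with hqdef
      have hn : 0 < ‖q‖ := norm_pos_iff.2 hq0
      rw [h3 _ (measurableSet_pieceCone Q hKm q) (isCone_pieceCone Q hKc q) a _ (mN j),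
        h3 _ (measurableSet_pieceCone Q hKm q) (isCone_pieceCone Q hKc q) a _ (mD j),
        mul_left_comm, mul_left_comm (sq d D0 d (astar d))]
      refine mul_le_mul_right ?_ _
      set z0 := (1 / ‖q‖ ^ 2) • q with hz0
      have hz0n : ‖z0‖ ^ 2 = 1 / ‖q‖ ^ 2 := by
        rw [hz0, norm_smul, mul_pow, Real.norm_eq_abs, sq_abs]; field_simp
      have hqz0 : ⟪q, z0⟫ = 1 := by
        rw [hz0, inner_smul_right, real_inner_self_eq_norm_sq]; field_simp
      have hz0κ : ∀ w, ⟪z0, κ w⟫ = 0 := by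
        intro w; rw [hz0, inner_smul_left, h1]; simp
      have hqz : ∀ w, ⟪q, z0 + κ w⟫ = 1 := by
        intro w; rw [inner_add_right, hqz0, h1, add_zero]
      have hnz : ∀ w, ‖z0 + κ w‖ < r ↔ a + 1 / ‖q‖ ^ 2 + ‖w‖ ^ 2 < astar d := by
        intro w
        have e1 : ‖z0 + κ w‖ ^ 2 = 1 / ‖q‖ ^ 2 + ‖w‖ ^ 2 := by
          rw [norm_add_sq_real, hz0n, hz0κ, κ.norm_map]; ring
        rw [← pow_lt_pow_iff_left₀ (norm_nonneg _) hr0.le two_ne_zero, e1, ← hr2]
        constructor <;> intro h <;> linarith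
      have hin : ∀ w, z0 + κ w ∈ pieceCone Q K q → a + 1 / ‖q‖ ^ 2 + ‖w‖ ^ 2 < astar d := by
        rintro w ⟨⟨q', hq', h4⟩, h5⟩
        rw [← hnz]
        have h6 : ⟪q', z0 + κ w⟫ ≤ 1 := by
          by_cases h : q' = q
          · rw [h, hqz]
          · have := h5 q' hq' h
            rw [hqz] at this
            exact this.le
        nlinarith
      by_cases ha' : a + 1 / ‖q‖ ^ 2 < astar d
      · have G' := G.step hC ha2 hc hcσ hq0 h1 h2
        have hP := (G.piece_iff hC ha2 hc hcσ hq0 h1 h2 (ha'.trans (astar_lt_two d))).2 K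
        have hcard' : (insert c σ).card = (j + 1) + 1 := by
          rw [Finset.card_insert_of_notMem hcσ, hcard]
        have hS : {w : E m | z0 + κ w ∈ pieceCone Q K q}
            = Reg C (insert c σ) (v + ι z0) (ι.comp κ) (a + 1 / ‖q‖ ^ 2) ∩
              {w | a + 1 / ‖q‖ ^ 2 + ‖w‖ ^ 2 < astar d} := by
          ext w
          constructor
          · intro hw
            exact ⟨((hP w).1 hw).2, hin w hw⟩
          · rintro ⟨hw1, hw2⟩
            refine (hP w).2 ⟨⟨q, hq, ?_⟩, hw1⟩
            rw [hqz, mul_one]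
            exact (hnz w).2 hw2
        have hih := ih (j + 1) (by omega) _ _ _ _ G' hcard' ha'
        rw [hS]
        have hfin : IsFiniteMeasure (volume.restrict
            (Reg C (insert c σ) (v + ι z0) (ι.comp κ) (a + 1 / ‖q‖ ^ 2) ∩
              {w | a + 1 / ‖q‖ ^ 2 + ‖w‖ ^ 2 < astar d})) := by
          refine isFiniteMeasure_restrict.2 (ne_top_of_le_ne_top ?_ (measure_mono inter_subset_right))
          rw [sqset_eq_ball ha']
          exact measure_ball_lt_top.ne
        refine key_int hρ (k := m) (by omega) haj h0 _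
          (φ := fun w : E m => a + 1 / ‖q‖ ^ 2 + ‖w‖ ^ 2) (by fun_prop) ?_ hih
        refine Filter.Eventually.of_forall fun w => ⟨?_, ?_⟩
        · have : 0 ≤ 1 / ‖q‖ ^ 2 := by positivity
          nlinarith [sq_nonneg ‖w‖]
        · have := G'.astar_le hC hcard'
          nlinarith [sq_nonneg ‖w‖]
      · have hS : {w : E m | z0 + κ w ∈ pieceCone Q K q} = ∅ := by
          ext w
          simp only [mem_ofPred_eq, mem_empty_iff_false, iff_false]
          intro hw
          have := hin w hw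
          exact ha' (by nlinarith [sq_nonneg ‖w‖])
        rw [hS]; simp
    · rw [mul_left_comm, mul_left_comm (sq d D0 d (astar d))]
      exact mul_le_mul_right (key_sphere hρ (by omega) haj h0 ha.le) _

lemma good_base {d : ℕ} {C : Finset (E d)} {o : E d} (ho : o ∈ C) :
    Good C {o} o (LinearIsometry.id : E d →ₗᵢ[ℝ] E d) 0 := by
  refine ⟨by simpa using ho, by simp, by simp, fun x hx => ⟨fun _ => 1, by simp, ?_⟩⟩
  have := hx x
  simp only [LinearIsometry.id_apply, inner_self_eq_zero] at this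
  simp [this]

/-- The open Voronoi cell of `o`. -/
def Vor {d : ℕ} (C : Finset (E d)) (o : E d) : Set (E d) :=
  {x | ∀ c ∈ C, c ≠ o → ‖x - o‖ ^ 2 < ‖x - c‖ ^ 2}

lemma measurableSet_Vor {d : ℕ} (C : Finset (E d)) (o : E d) : MeasurableSet (Vor C o) := by
  classical
  have : Vor C o = ⋂ c ∈ C.filter (· ≠ o), {x | ‖x - o‖ ^ 2 < ‖x - c‖ ^ 2} := by
    ext w; simp [Vor]
  rw [this]
  exact Finset.measurableSet_biInter _ fun c _ => measurableSet_lt (by fun_prop) (by fun_prop)

lemma mem_Reg_base {d : ℕ} (C : Finset (E d)) (o w : E d) :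
    w ∈ Reg C {o} o (LinearIsometry.id : E d →ₗᵢ[ℝ] E d) 0 ↔ o + w ∈ Vor C o := by
  simp [Reg, Vor]

/-- Local bound for one Voronoi cell. -/
theorem local_bound {R : ℝ} (hR : 1 ≤ R) {d : ℕ} (hd : 1 ≤ d) {C : Finset (E d)} (hC : Pack C)
    {o : E d} (ho : o ∈ C) :
    sq d (N0 (R ^ 2)) d (astar d) * volume (Metric.closedBall (0 : E d) 1)
      ≤ sq d D0 d (astar d) * volume (Vor C o ∩ Metric.closedBall o R) := by
  have hA : 1 ≤ astar d := one_le_astar hd
  have h := pack_ind (ρ := R ^ 2) (one_le_pow₀ hR) hC d 0 (by omega) {o} o LinearIsometry.id 0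
    (good_base ho) (by simp) (by linarith)
  have hm : MeasurableSet (Reg C {o} o (LinearIsometry.id : E d →ₗᵢ[ℝ] E d) 0 ∩
      {w | 0 + ‖w‖ ^ 2 < astar d}) :=
    measurableSet_Reg.inter (measurableSet_lt (by fun_prop) measurable_const)
  refine le_trans (mul_le_mul_right ?_ _) (h.trans (mul_le_mul_right ?_ _))
  · have : Nontrivial (E d) := by
      have : Nonempty (Fin d) := ⟨⟨0, hd⟩⟩
      infer_instance
    rw [Measure.addHaar_closedBall_eq_addHaar_ball, ← setLIntegral_one]
    calc ∫⁻ _w in Metric.ball (0 : E d) 1, 1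
        = ∫⁻ w in Metric.ball (0 : E d) 1, sq d D0 0 (0 + ‖w‖ ^ 2) := by
          refine setLIntegral_congr_fun measurableSet_ball fun w hw => ?_
          have h1 : ‖w‖ < 1 := mem_ball_zero_iff.1 hw
          have h2 : ‖w‖ ^ 2 < 1 := by nlinarith [norm_nonneg w]
          simp [sq, D0, h2]
      _ ≤ _ := by
          refine lintegral_mono_set fun w hw => ?_
          have h1 : ‖w‖ < 1 := mem_ball_zero_iff.1 hw
          have h2 : ‖w‖ ^ 2 < 1 := by nlinarith [norm_nonneg w]
          refine ⟨(mem_Reg_base C o w).2 fun c hc hne => ?_, by simp only [mem_ofPred_eq]; linarith⟩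
          have h3 := hC c hc o ho hne
          have h4 : 2 ≤ ‖c - o‖ := by
            by_contra h5
            push Not at h5
            nlinarith [norm_nonneg (c - o)]
          have h5 : ‖c - o‖ ≤ ‖o + w - c‖ + ‖w‖ := by
            have : c - o = -(o + w - c) + w := by abel
            rw [this]
            exact (norm_add_le _ _).trans (by rw [norm_neg])
          rw [add_sub_cancel_left]
          nlinarith
  · rw [← measure_preimage_add volume o (Vor C o ∩ Metric.closedBall o R), ← setLIntegral_one,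
      ← lintegral_indicator hm, ← lintegral_indicator
        (((measurableSet_Vor C o).inter Metric.isClosed_closedBall.measurableSet).preimage
          (measurable_const_add o))]
    refine lintegral_mono fun w => ?_
    by_cases hw : w ∈ Reg C {o} o (LinearIsometry.id : E d →ₗᵢ[ℝ] E d) 0 ∩
      {w | 0 + ‖w‖ ^ 2 < astar d}
    · rw [indicator_of_mem hw]
      by_cases h1 : ‖w‖ ≤ R
      · rw [indicator_of_mem]
        · exact N0_le_one _ _
        · exact ⟨(mem_Reg_base C o w).1 hw.1, by simpa using h1⟩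
      · have h2 : ¬ ‖w‖ ^ 2 ≤ R ^ 2 := by
          rw [not_le] at h1 ⊢
          nlinarith
        simp [sq, N0, h2]
    · rw [indicator_of_notMem hw]; exact zero_le

/-- Global bound for a packing. -/
theorem packing_bound {R : ℝ} (hR : 1 ≤ R) {d : ℕ} (hd : 1 ≤ d) {C : Finset (E d)} (hC : Pack C) :
    sq d (N0 (R ^ 2)) d (astar d) * (C.card * volume (Metric.closedBall (0 : E d) 1))
      ≤ sq d D0 d (astar d) * volume (⋃ c ∈ C, Metric.closedBall c R) := by
  have h1 : ∑ o ∈ C, volume (Vor C o ∩ Metric.closedBall o R)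
      ≤ volume (⋃ c ∈ C, Metric.closedBall c R) := by
    rw [← measure_biUnion_finset]
    · refine measure_mono (iUnion₂_mono fun o _ => inter_subset_right)
    · intro o ho o' ho' hne
      rw [Function.onFun, Set.disjoint_left]
      rintro x ⟨h1, _⟩ ⟨h2, _⟩
      exact lt_asymm (h1 o' ho' hne.symm) (h2 o ho hne)
    · intro o _
      exact (measurableSet_Vor C o).inter Metric.isClosed_closedBall.measurableSet
  refine le_trans ?_ (mul_le_mul_right h1 _)
  rw [Finset.mul_sum, mul_left_comm, ← nsmul_eq_mul, ← Finset.sum_const]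
  exact Finset.sum_le_sum fun o ho => local_bound hR hd hC ho

end Pool.Agent.MP_278f54_co.H42
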