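import Pool.Agent.MP_278f54_co.H42.Packing

/-!
The regular simplex: exact evaluation of the recursion.
-/

open MeasureTheory Set
open scoped ENNReal NNReal RealInnerProductSpace

namespace Pool.Agent.MP_278f54_co.H42

/-- `C` is the vertex set of a regular simplex of edge length two with centroid `g`. -/
structure RegS {d : ℕ} (C : Finset (E d)) (g : E d) : Prop where
  card : C.card = d + 1
  hdist : ∀ c ∈ C, ∀ c' ∈ C, c ≠ c' → ‖c - c'‖ ^ 2 = 4
  hsum : ∑ c ∈ C, (c - g) = 0
  hspan : ∀ x : E d, (∀ c ∈ C, ⟪x, c - g⟫ = 0) → x = 0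

section

variable {d : ℕ} {C : Finset (E d)} {g : E d}

lemma RegS.pack (S : RegS C g) : Pack C := fun c hc c' hc' hne => (S.hdist c hc c' hc' hne).ge

lemma RegS.norm_sq (S : RegS C g) {c : E d} (hc : c ∈ C) : ‖c - g‖ ^ 2 = astar d := by
  classical
  have h1 : ∀ c ∈ C, ((d : ℝ) + 1) * ‖c - g‖ ^ 2 + ∑ c' ∈ C, ‖c' - g‖ ^ 2 = 4 * d := by
    intro c hc
    have h2 : ⟪c - g, ∑ c' ∈ C, (c' - g)⟫ = 0 := by rw [S.hsum, inner_zero_right]
    rw [inner_sum] at h2
    simp only [inner_sub_sub] at h2
    rw [← Finset.sum_div, Finset.sum_sub_distrib, Finset.sum_add_distrib, Finset.sum_const, S.card,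
      nsmul_eq_mul] at h2
    have h3 : ∑ c' ∈ C, ‖c - c'‖ ^ 2 = 4 * d := by
      rw [← Finset.add_sum_erase _ _ hc, sub_self, norm_zero,
        Finset.sum_congr rfl (g := fun _ => (4 : ℝ)) (fun c' hc' => S.hdist c hc c'
          (Finset.mem_of_mem_erase hc') (Finset.ne_of_mem_erase hc').symm),
        Finset.sum_const, Finset.card_erase_of_mem hc, S.card]
      simp; ring
    rw [h3] at h2
    push_cast at h2
    linarith
  have h4 := Finset.sum_congr rfl h1
  rw [Finset.sum_add_distrib, ← Finset.mul_sum, Finset.sum_const, Finset.sum_const, S.card,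
    nsmul_eq_mul, nsmul_eq_mul] at h4
  push_cast at h4
  have hd : (0 : ℝ) < (d : ℝ) + 1 := by positivity
  have h5 : ∑ c' ∈ C, ‖c' - g‖ ^ 2 = 2 * d := by
    have : ((d : ℝ) + 1) * (∑ c' ∈ C, ‖c' - g‖ ^ 2) = ((d : ℝ) + 1) * (2 * d) := by linarith
    exact mul_left_cancel₀ hd.ne' this
  have h6 := h1 c hc
  rw [h5] at h6
  unfold astar
  rw [eq_div_iff hd.ne']
  linarith

lemma RegS.inner_ne (S : RegS C g) {c c' : E d} (hc : c ∈ C) (hc' : c' ∈ C) (hne : c ≠ c') :
    ⟪c - g, c' - g⟫ = astar d - 2 := by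
  rw [inner_sub_sub, S.norm_sq hc, S.norm_sq hc', S.hdist c hc c' hc' hne]; ring

lemma RegS.sum_inner (S : RegS C g) (x : E d) : ∑ c ∈ C, ⟪x, c - g⟫ = 0 := by
  rw [← inner_sum, S.hsum, inner_zero_right]

variable {m : ℕ} {σ : Finset (E d)} {v : E d} {ι : E m →ₗᵢ[ℝ] E d} {a : ℝ}

lemma RegS.a_eq (S : RegS C g) (G : Good C σ v ι a) {j : ℕ} (hj : σ.card = j + 1) :
    a = astar j := by
  classical
  obtain ⟨ν, h1, h2⟩ := G.hspan 0 (by simp)
  have h3 : ∀ c' ∈ σ, ν c' = (2 - a) / 2 := by
    intro c' hc'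
    have h4 : ⟪c' - v, ∑ c ∈ σ, ν c • (c - v)⟫ = 0 := by rw [h2, inner_zero_right]
    rw [inner_sum, ← Finset.add_sum_erase _ _ hc', inner_smul_right, real_inner_self_eq_norm_sq,
      G.hdist c' hc', Finset.sum_congr rfl (g := fun c => ν c * (a - 2)), ← Finset.sum_mul] at h4
    · have h5 : ∑ c ∈ σ.erase c', ν c = 1 - ν c' := by
        rw [← h1, ← Finset.add_sum_erase _ _ hc']; ring
      rw [h5] at h4
      linarith
    · intro c hc
      have hc1 := Finset.mem_of_mem_erase hc
      rw [inner_smul_right, inner_sub_sub, G.hdist c' hc', G.hdist c hc1,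
        S.hdist c' (G.sub hc') c (G.sub hc1) (Finset.ne_of_mem_erase hc).symm]
      ring
  rw [Finset.sum_congr rfl h3, Finset.sum_const, hj, nsmul_eq_mul] at h1
  push_cast at h1
  unfold astar
  rw [eq_div_iff (by positivity)]
  linarith

/-- Points of the affine span of `σ` have vanishing barycentric coordinates outside `σ`. -/
lemma RegS.inner_of_perp (S : RegS C g) (G : Good C σ v ι a) {x : E d}
    (hx : ∀ w, ⟪x, ι w⟫ = 0) {c : E d} (hc : c ∈ C) (hcσ : c ∉ σ) :
    ⟪v + x - g, c - g⟫ = astar d - 2 := by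
  obtain ⟨μ, h1, h2⟩ := G.hspan x hx
  have h3 : v + x - g = ∑ c' ∈ σ, μ c' • (c' - g) := by
    have : ∀ c' ∈ σ, μ c' • (c' - g) = μ c' • (c' - v) + μ c' • (v - g) := by
      intro c' _; module
    rw [Finset.sum_congr rfl this, Finset.sum_add_distrib, h2, ← Finset.sum_smul, h1, one_smul]
    abel
  rw [h3, _root_.sum_inner, Finset.sum_congr rfl (g := fun c' => μ c' * (astar d - 2)),
    ← Finset.sum_mul, h1, one_mul]
  intro c' hc'
  rw [inner_smul_left, S.inner_ne (G.sub hc') hc (fun h => hcσ (h ▸ hc'))]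
  simp

lemma RegS.qv_ne_zero (S : RegS C g) (G : Good C σ v ι a) (ha : a < 2) {c : E d} (hc : c ∈ C)
    (hcσ : c ∉ σ) : qv v ι a c ≠ 0 := by
  intro h
  have hβ : 0 < ‖c - v‖ ^ 2 - a := by linarith [G.lt_dist S.pack ha hc hcσ]
  rw [qv, smul_eq_zero] at h
  rcases h with h | h
  · have : 0 < 2 / (‖c - v‖ ^ 2 - a) := by positivity
    exact this.ne' h
  · have h1 := S.inner_of_perp G (x := c - v) (fun w => by rw [← inner_proj, h, inner_zero_left])
      hc hcσ
    rw [add_sub_cancel, real_inner_self_eq_norm_sq, S.norm_sq hc] at h1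
    linarith

/-- The cone of the simplex along the face `σ`. -/
def Kc (C σ : Finset (E d)) (g : E d) (ι : E m →ₗᵢ[ℝ] E d) : Set (E m) :=
  {w | ∀ c ∈ C, c ∉ σ → 0 ≤ ⟪ι w, c - g⟫}

lemma measurableSet_Kc : MeasurableSet (Kc C σ g ι) := by
  classical
  have : Kc C σ g ι = ⋂ c ∈ C \ σ, {w | 0 ≤ ⟪ι w, c - g⟫} := by
    ext w; simp [Kc]
  rw [this]
  refine Finset.measurableSet_biInter _ fun c _ => ?_
  have hι := ι.continuous
  exact measurableSet_le measurable_const (Continuous.measurable (by fun_prop))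

lemma isCone_Kc : IsCone (Kc C σ g ι) := by
  intro t ht w
  simp only [Kc, mem_ofPred_eq, map_smul, inner_smul_left, conj_trivial,
    mul_nonneg_iff_of_pos_left ht]

lemma RegS.hpos (S : RegS C g) (G : Good C σ v ι a) (ha : a < 2) :
    ∀ w ∈ Kc C σ g ι, w ≠ 0 → ∃ q ∈ Qs C σ v ι a, 0 < ⟪q, w⟫ := by
  intro w hw hw0
  by_contra hcon
  push Not at hcon
  have h1 : ∀ c ∈ C, ⟪ι w, c - v⟫ ≤ 0 := by
    intro c hc
    by_cases hcσ : c ∈ σ
    · rw [real_inner_comm, G.horth c hcσ]
    · have hβ : 0 < ‖c - v‖ ^ 2 - a := by linarith [G.lt_dist S.pack ha hc hcσ]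
      have h2 := hcon _ (mem_Qs.2 ⟨c, hc, hcσ, rfl⟩)
      rw [qv, inner_smul_left, inner_proj, real_inner_comm] at h2
      simp only [conj_trivial] at h2
      have h3 : 0 < 2 / (‖c - v‖ ^ 2 - a) := by positivity
      by_contra h4
      push Not at h4
      nlinarith [mul_pos h3 h4]
  have h2 : ∀ c : E d, ⟪ι w, c - v⟫ = ⟪ι w, c - g⟫ + ⟪ι w, g - v⟫ := by
    intro c; rw [← inner_add_right]; congr 1; abel
  have h3 : ⟪ι w, g - v⟫ ≤ 0 := by
    have h4 := Finset.sum_nonpos h1
    rw [Finset.sum_congr rfl (fun c _ => h2 c), Finset.sum_add_distrib, S.sum_inner,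
      Finset.sum_const, S.card, nsmul_eq_mul, zero_add] at h4
    have h5 : (0 : ℝ) < ((d + 1 : ℕ) : ℝ) := by positivity
    by_contra h6
    push Not at h6
    nlinarith [mul_pos h5 h6]
  have h4 : ∀ c ∈ C, 0 ≤ ⟪ι w, c - g⟫ := by
    intro c hc
    by_cases hcσ : c ∈ σ
    · have := h2 c
      rw [real_inner_comm, G.horth c hcσ] at this
      linarith
    · exact hw c hc hcσ
  have h5 := (Finset.sum_eq_zero_iff_of_nonneg h4).1 (S.sum_inner _)
  have h6 := S.hspan _ h5
  exact hw0 (ι.injective (by rw [h6, map_zero]))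

/-- In the face, the barycentric coordinates of the vertices of `σ` are positive. -/
lemma RegS.inner_nonneg (S : RegS C g) (G : Good C σ v ι a) {w : E m} (hw : w ∈ Reg C σ v ι a)
    {c : E d} (hc : c ∈ σ) : 0 ≤ ⟪v + ι w - g, c - g⟫ := by
  have h1 : ∀ k ∈ C, ‖v + ι w - k‖ ^ 2
      = ‖v + ι w - g‖ ^ 2 - 2 * ⟪v + ι w - g, k - g⟫ + astar d := by
    intro k hk
    have : v + ι w - k = (v + ι w - g) - (k - g) := by abel
    rw [this, norm_sub_sq_real, S.norm_sq hk]
  have h2 : ∀ k ∈ σ, ‖v + ι w - k‖ ^ 2 = a + ‖w‖ ^ 2 := by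
    intro k hk
    have : v + ι w - k = ι w - (k - v) := by abel
    rw [this, norm_sub_sq_real, real_inner_comm, G.horth k hk, G.hdist k hk, ι.norm_map]; ring
  have h3 : ∀ k ∈ C, ⟪v + ι w - g, k - g⟫ ≤ ⟪v + ι w - g, c - g⟫ := by
    intro k hk
    have e1 := h1 k hk
    have e2 := h1 c (G.sub hc)
    have e3 := h2 c hc
    by_cases hkσ : k ∈ σ
    · have e4 := h2 k hkσ; linarith
    · have e4 := hw k hk hkσ; linarith
  have h4 := Finset.sum_le_sum h3
  rw [S.sum_inner, Finset.sum_const, S.card, nsmul_eq_mul] at h4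
  exact nonneg_of_mul_nonneg_right h4 (by positivity)

end

theorem simplex_ind {d : ℕ} {C : Finset (E d)} {g : E d} (S : RegS C g) :
    ∀ (m j : ℕ), d = j + m → ∃ K : ℝ≥0∞,
      ∀ (σ : Finset (E d)) (v : E d) (ι : E m →ₗᵢ[ℝ] E d) (a : ℝ),
      Good C σ v ι a → σ.card = j + 1 → ∀ f : ℝ → ℝ≥0∞, Measurable f →
      ∫⁻ w in Kc C σ g ι ∩ Reg C σ v ι a, sq d f j (a + ‖w‖ ^ 2) = K * sq d f d (astar d) := by
  classical
  intro m
  induction m with
  | zero =>
    intro j hd
    refine ⟨1, fun σ v ι a G hcard f _ => ?_⟩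
    have hj : j = d := by omega
    subst hj
    have hσ : σ = C := Finset.eq_of_subset_of_card_le G.sub (by rw [S.card, hcard])
    have h1 : Kc C σ g ι ∩ Reg C σ v ι a = univ := by
      ext w
      simp only [Kc, Reg, hσ, mem_inter_iff, mem_ofPred_eq, mem_univ, iff_true]
      exact ⟨fun c hc hc' => absurd hc hc', fun c hc hc' => absurd hc hc'⟩
    rw [h1, Measure.restrict_univ, volume_euclideanSpace_eq_dirac, lintegral_dirac,
      S.a_eq G hcard]
    simp
  | succ m ih =>
    intro j hd
    obtain ⟨K, hK⟩ := ih (j + 1) (by omega)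
    refine ⟨(m + 1 : ℕ) * (ENNReal.ofReal (Real.sqrt (astar (j + 1) - astar j)) * K),
      fun σ v ι a G hcard f hf => ?_⟩
    have haj : a = astar j := S.a_eq G hcard
    have ha2 : a < 2 := haj ▸ astar_lt_two j
    have hset : Kc C σ g ι ∩ Reg C σ v ι a
        = {w | w ∈ Kc C σ g ι ∧ ∀ q ∈ Qs C σ v ι a, ⟪q, w⟫ < 1} := by
      ext w
      simp only [mem_inter_iff, G.mem_Reg S.pack ha2, mem_ofPred_eq]
    have hmain : ∀ c ∈ C, c ∉ σ →
        (∀ c' ∈ C, c' ∉ σ → c' ≠ c → qv v ι a c' ≠ qv v ι a c) ∧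
        ∫⁻ w in pieceCone (Qs C σ v ι a) (Kc C σ g ι) (qv v ι a c) ∩
          {w | 0 < ⟪qv v ι a c, w⟫ ∧ ⟪qv v ι a c, w⟫ < 1}, sq d f j (a + ‖w‖ ^ 2)
          = ENNReal.ofReal (Real.sqrt (astar (j + 1) - astar j)) * K * sq d f d (astar d) := by
      intro c hc hcσ
      have hq0 := S.qv_ne_zero G ha2 hc hcσ
      obtain ⟨κ, h1, h2, h3⟩ := facet_formula _ hq0
      have G' := G.step S.pack ha2 hc hcσ hq0 h1 h2
      have hcard' : (insert c σ).card = (j + 1) + 1 := by
        rw [Finset.card_insert_of_notMem hcσ, hcard]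
      have ha' := S.a_eq G' hcard'
      obtain ⟨hinj, hP⟩ := G.piece_iff S.pack ha2 hc hcσ hq0 h1 h2 (ha' ▸ astar_lt_two _)
      refine ⟨hinj, ?_⟩
      set q := qv v ι a c with hqdef
      have hn : 0 < ‖q‖ := norm_pos_iff.2 hq0
      set z0 := (1 / ‖q‖ ^ 2) • q with hz0
      rw [h3 _ (measurableSet_pieceCone _ measurableSet_Kc q) (isCone_pieceCone _ isCone_Kc q) a _
        (measurable_sq d hf j), mul_assoc]
      have hh : 1 / ‖q‖ = Real.sqrt (astar (j + 1) - astar j) := by
        rw [← ha', ← haj, add_sub_cancel_left, ← one_pow 2, ← div_pow,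
          Real.sqrt_sq (by positivity)]
        simp
      rw [hh]
      congr 1
      have hS : {w : E m | z0 + κ w ∈ pieceCone (Qs C σ v ι a) (Kc C σ g ι) q}
          = Kc C (insert c σ) g (ι.comp κ) ∩
            Reg C (insert c σ) (v + ι z0) (ι.comp κ) (a + 1 / ‖q‖ ^ 2) := by
        have hv : ∀ c' ∈ C, c' ∉ σ → ⟪v - g, c' - g⟫ = astar d - 2 := by
          intro c' hc' hc'σ
          simpa using S.inner_of_perp G (x := 0) (by simp) hc' hc'σ
        have hv' : ∀ c' ∈ C, c' ∉ insert c σ → ⟪v + ι z0 - g, c' - g⟫ = astar d - 2 := by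
          intro c' hc' hc'σ
          simpa using S.inner_of_perp G' (x := 0) (by simp) hc' hc'σ
        have hz : ∀ c' ∈ C, c' ∉ insert c σ → ∀ w,
            ⟪ι (z0 + κ w), c' - g⟫ = ⟪(ι.comp κ) w, c' - g⟫ := by
          intro c' hc' hc'σ w
          have e1 := hv c' hc' (fun h => hc'σ (Finset.mem_insert_of_mem h))
          have e2 := hv' c' hc' hc'σ
          have e3 : v + ι z0 - g = (v - g) + ι z0 := by abel
          rw [e3, inner_add_left, e1] at e2
          rw [map_add, inner_add_left]
          simp only [LinearIsometry.coe_comp, Function.comp_apply]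
          linarith
        ext w
        rw [mem_ofPred_eq, hP, mem_inter_iff]
        refine and_congr_left fun hw => ?_
        constructor
        · intro h c' hc' hc'σ
          rw [← hz c' hc' hc'σ]
          exact h c' hc' (fun h => hc'σ (Finset.mem_insert_of_mem h))
        · intro h c' hc' hc'σ
          by_cases hcc : c' = c
          · have e1 := S.inner_nonneg G' hw (Finset.mem_insert_self c σ)
            have e2 := hv c hc hcσ
            have e3 : v + ι z0 + (ι.comp κ) w - g = (v - g) + ι (z0 + κ w) := by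
              simp only [LinearIsometry.coe_comp, Function.comp_apply, map_add]; abel
            rw [e3, inner_add_left, e2] at e1
            rw [hcc]
            linarith [astar_lt_two d]
          · have hc'' : c' ∉ insert c σ := by simp [hcc, hc'σ]
            rw [hz c' hc' hc'']
            exact h c' hc' hc''
      rw [hS, ← hK _ _ _ _ G' hcard' f hf, sq_succ (k := m) (by omega), ← haj]
    have hinj : Set.InjOn (qv v ι a) ((C \ σ : Finset (E d)) : Set (E d)) := by
      intro c hc c' hc' heq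
      by_contra hne
      have hc1 := Finset.mem_sdiff.1 (Finset.mem_coe.1 hc)
      have hc2 := Finset.mem_sdiff.1 (Finset.mem_coe.1 hc')
      exact (hmain c' hc2.1 hc2.2).1 c hc1.1 hc1.2 hne heq
    have hcardQ : (Qs C σ v ι a).card = m + 1 := by
      have : (Qs C σ v ι a) = (C \ σ).image (qv v ι a) := by
        ext q; simp [mem_Qs, and_assoc]
      rw [this, Finset.card_image_of_injOn hinj, Finset.card_sdiff_of_subset G.sub, S.card, hcard]
      omega
    rw [hset, region_decomp _ measurableSet_Kc (S.hpos G ha2),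
      Finset.sum_congr rfl (g := fun _ =>
        ENNReal.ofReal (Real.sqrt (astar (j + 1) - astar j)) * K * sq d f d (astar d)),
      Finset.sum_const, hcardQ, nsmul_eq_mul]
    · ring
    · intro q hq
      obtain ⟨c, hc, hcσ, rfl⟩ := mem_Qs.1 hq
      exact (hmain c hc hcσ).2

/-- Points with nonnegative barycentric coordinates lie in the simplex. -/
lemma RegS.mem_hull {d : ℕ} {C : Finset (E d)} {g : E d} (S : RegS C g) {x : E d}
    (hx : ∀ c ∈ C, astar d - 2 ≤ ⟪x - g, c - g⟫) : x ∈ convexHull ℝ (C : Set (E d)) := by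
  classical
  set l : E d → ℝ := fun c => (⟪x - g, c - g⟫ - (astar d - 2)) / 2 with hl
  have h0 : ∀ c ∈ C, 0 ≤ l c := fun c hc => by
    have := hx c hc
    simp only [hl]; linarith
  have h1 : ∑ c ∈ C, l c = 1 := by
    simp only [hl]
    rw [← Finset.sum_div, Finset.sum_sub_distrib, S.sum_inner, Finset.sum_const, S.card,
      nsmul_eq_mul, astar]
    push_cast
    field_simp
    ring
  have h2 : x - g = ∑ c ∈ C, l c • (c - g) := by
    rw [← sub_eq_zero]
    refine S.hspan _ fun c' hc' => ?_
    rw [inner_sub_left, _root_.sum_inner, ← Finset.add_sum_erase _ _ hc', inner_smul_left,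
      real_inner_self_eq_norm_sq, S.norm_sq hc',
      Finset.sum_congr rfl (g := fun c => l c * (astar d - 2)), ← Finset.sum_mul]
    · have h5 : ∑ c ∈ C.erase c', l c = 1 - l c' := by
        rw [← h1, ← Finset.add_sum_erase _ _ hc']; ring
      rw [h5]
      simp only [hl, conj_trivial]
      ring
    · intro c hc
      rw [inner_smul_left, S.inner_ne (Finset.mem_of_mem_erase hc) hc' (Finset.ne_of_mem_erase hc)]
      simp
  have h3 : x = ∑ c ∈ C, l c • c := by
    have : ∀ c ∈ C, l c • (c - g) = l c • c - l c • g := fun c _ => smul_sub _ _ _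
    rw [Finset.sum_congr rfl this, Finset.sum_sub_distrib, ← Finset.sum_smul, h1, one_smul] at h2
    exact sub_left_injective h2
  rw [h3]
  exact (convex_convexHull ℝ _).sum_mem h0 h1 fun c hc => subset_convexHull ℝ _ hc

lemma RegS.le_of_mem_hull {d : ℕ} {C : Finset (E d)} {g : E d} (S : RegS C g) {x : E d}
    (hx : x ∈ convexHull ℝ (C : Set (E d))) {c : E d} (hc : c ∈ C) :
    astar d - 2 ≤ ⟪x - g, c - g⟫ := by
  have hconv : Convex ℝ {x : E d | astar d - 2 ≤ ⟪x - g, c - g⟫} := by
    intro x hx y hy s t hs ht hst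
    simp only [mem_ofPred_eq] at hx hy ⊢
    have : s • x + t • y - g = s • (x - g) + t • (y - g) := by
      have h1 : g = s • g + t • g := by rw [← add_smul, hst, one_smul]
      conv_lhs => rw [h1]
      module
    rw [this, inner_add_left, inner_smul_left, inner_smul_left]
    simp only [conj_trivial]
    have e : astar d - 2 = s * (astar d - 2) + t * (astar d - 2) := by rw [← add_mul, hst, one_mul]
    rw [e]
    gcongr
  refine convexHull_min ?_ hconv hx
  intro c' hc'
  simp only [mem_ofPred_eq]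
  by_cases h : c' = c
  · rw [h, real_inner_self_eq_norm_sq, S.norm_sq hc]; linarith
  · rw [S.inner_ne hc' hc h]

/-- Two sided evaluation for the regular simplex. -/
theorem simplex_bound {d : ℕ} {C : Finset (E d)} {g : E d} (S : RegS C g) (R : ℝ) :
    ∃ K : ℝ≥0∞,
      volume (convexHull ℝ (C : Set (E d)) ∩ ⋃ c ∈ C, Metric.closedBall c R)
        ≤ ((d : ℝ≥0∞) + 1) * (K * sq d (N0 (R ^ 2)) d (astar d)) ∧
      ∀ o ∈ C, K * sq d D0 d (astar d)
        ≤ volume (convexHull ℝ (C : Set (E d)) ∩ Metric.closedBall o 1) := by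
  classical
  obtain ⟨K, hK⟩ := simplex_ind S d 0 (by omega)
  have hm : ∀ o : E d, MeasurableSet (Kc C {o} g (LinearIsometry.id : E d →ₗᵢ[ℝ] E d) ∩
      Reg C {o} o (LinearIsometry.id : E d →ₗᵢ[ℝ] E d) 0) :=
    fun o => measurableSet_Kc.inter measurableSet_Reg
  have hT : MeasurableSet (convexHull ℝ (C : Set (E d))) :=
    (C.finite_toSet.isCompact_convexHull ℝ).isClosed.measurableSet
  refine ⟨K, ?_, ?_⟩
  · have hnull : volume (⋃ p ∈ (C ×ˢ C).filter (fun p => p.1 ≠ p.2),
        {x : E d | dist x p.1 = dist x p.2}) = 0 := by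
      refine (measure_biUnion_null_iff (Finset.countable_toSet _)).2 fun p hp => ?_
      have hp' : p.1 ≠ p.2 := by
        simp only [Finset.coe_filter, mem_ofPred_eq] at hp
        exact hp.2
      have := Measure.addHaar_affineSubspace (volume : Measure (E d))
        (AffineSubspace.perpBisector p.1 p.2) (by
          rw [Ne, AffineSubspace.perpBisector_eq_top]; exact hp')
      refine measure_mono_null (fun x hx => ?_) this
      exact AffineSubspace.mem_perpBisector_iff_dist_eq.2 hx
    have hcover : convexHull ℝ (C : Set (E d)) ∩ ⋃ c ∈ C, Metric.closedBall c R ⊆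
        (⋃ o ∈ C, convexHull ℝ (C : Set (E d)) ∩ Vor C o ∩ Metric.closedBall o R) ∪
        ⋃ p ∈ (C ×ˢ C).filter (fun p => p.1 ≠ p.2), {x : E d | dist x p.1 = dist x p.2} := by
      rintro x ⟨hxT, hx⟩
      simp only [mem_iUnion, exists_prop] at hx
      obtain ⟨c, hc, hxc⟩ := hx
      obtain ⟨o, ho, hmin⟩ := C.exists_min_image (fun c => dist x c) ⟨c, hc⟩
      by_contra hcon
      simp only [mem_union, mem_iUnion, exists_prop, not_or, not_exists, not_and,
        Finset.mem_filter, Finset.mem_product, mem_ofPred_eq] at hcon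
      refine hcon.1 o ho ⟨⟨hxT, fun c' hc' hne => ?_⟩, (hmin c hc).trans hxc⟩
      have h1 : dist x o < dist x c' :=
        lt_of_le_of_ne (hmin c' hc') (hcon.2 (o, c') ⟨⟨ho, hc'⟩, hne.symm⟩)
      rw [dist_eq_norm, dist_eq_norm] at h1
      exact pow_lt_pow_left₀ h1 (norm_nonneg _) two_ne_zero
    refine (measure_mono hcover).trans ((measure_union_le _ _).trans ?_)
    rw [hnull, add_zero]
    refine (measure_biUnion_finset_le _ _).trans ?_
    have hcard : ((d : ℝ≥0∞) + 1) = (C.card : ℝ≥0∞) := by rw [S.card]; push_cast; rfl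
    rw [hcard, ← nsmul_eq_mul, ← Finset.sum_const]
    refine Finset.sum_le_sum fun o ho => ?_
    have hm2 : MeasurableSet (convexHull ℝ (C : Set (E d)) ∩ Vor C o ∩ Metric.closedBall o R) :=
      (hT.inter (measurableSet_Vor C o)).inter Metric.isClosed_closedBall.measurableSet
    rw [← hK {o} o LinearIsometry.id 0 (good_base ho) (by simp) _ (measurable_N0 _),
      ← measure_preimage_add volume o, ← setLIntegral_one,
      ← lintegral_indicator (hm o), ← lintegral_indicator (hm2.preimage (measurable_const_add o))]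
    refine lintegral_mono fun w => ?_
    by_cases hw : w ∈ (fun h => o + h) ⁻¹'
        (convexHull ℝ (C : Set (E d)) ∩ Vor C o ∩ Metric.closedBall o R)
    · rw [indicator_of_mem hw]
      obtain ⟨⟨h1, h2⟩, h3⟩ := hw
      have h4 : ‖w‖ ≤ R := by simpa using h3
      have h5 : ‖w‖ ^ 2 ≤ R ^ 2 := pow_le_pow_left₀ (norm_nonneg _) h4 2
      rw [indicator_of_mem]
      · simp [sq, N0, h5]
      · refine ⟨fun c hc hco => ?_, (mem_Reg_base C o w).2 h2⟩
        have h6 := S.le_of_mem_hull h1 hc
        have h7 := S.inner_ne ho hc (fun h => hco (by simp [h]))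
        have h8 : o + w - g = (o - g) + w := by abel
        rw [h8, inner_add_left, h7] at h6
        simp only [LinearIsometry.id_apply]
        linarith
    · rw [indicator_of_notMem hw]; exact zero_le
  · intro o ho
    have hm2 : MeasurableSet (convexHull ℝ (C : Set (E d)) ∩ Metric.closedBall o 1) :=
      hT.inter Metric.isClosed_closedBall.measurableSet
    rw [← hK {o} o LinearIsometry.id 0 (good_base ho) (by simp) _ measurable_D0,
      ← measure_preimage_add volume o, ← setLIntegral_one,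
      ← lintegral_indicator (hm o), ← lintegral_indicator (hm2.preimage (measurable_const_add o))]
    refine lintegral_mono fun w => ?_
    by_cases hw : w ∈ Kc C {o} g (LinearIsometry.id : E d →ₗᵢ[ℝ] E d) ∩
      Reg C {o} o (LinearIsometry.id : E d →ₗᵢ[ℝ] E d) 0
    · rw [indicator_of_mem hw]
      by_cases h1 : ‖w‖ ^ 2 < 1
      · rw [indicator_of_mem]
        · exact D0_le_one _
        · refine ⟨S.mem_hull fun c hc => ?_, ?_⟩
          · by_cases hco : c = o
            · have := S.inner_nonneg (good_base ho) hw.2 (Finset.mem_singleton_self o)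
              simp only [LinearIsometry.id_apply] at this
              rw [hco]
              linarith [astar_lt_two d]
            · have h6 := hw.1 c hc (by simpa using hco)
              have h7 := S.inner_ne ho hc (Ne.symm hco)
              have h8 : o + w - g = (o - g) + w := by abel
              simp only [LinearIsometry.id_apply] at h6
              rw [h8, inner_add_left, h7]
              linarith
          · have : ‖w‖ ≤ 1 := by nlinarith [norm_nonneg w]
            simpa using this
      · simp [sq, D0, h1]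
    · rw [indicator_of_notMem hw]; exact zero_le

/-- The vertices of the given regular simplex. -/
lemma regS_of_dist {d : ℕ} (t : Fin (d + 1) → E d) (ht : ∀ i j, i ≠ j → dist (t i) (t j) = 2) :
    ∃ (C : Finset (E d)) (g : E d), RegS C g ∧ (C : Set (E d)) = Set.range t := by
  classical
  have hinj : Function.Injective t := by
    intro i j hij
    by_contra hne
    have := ht i j hne
    rw [hij, dist_self] at this
    norm_num at this
  have hsq : ∀ i j, i ≠ j → ‖t i - t j‖ ^ 2 = 4 := by
    intro i j hne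
    rw [← dist_eq_norm, ht i j hne]; norm_num
  set g : E d := (1 / ((d : ℝ) + 1)) • ∑ i, t i with hg
  refine ⟨Finset.univ.image t, g, ⟨?_, ?_, ?_, ?_⟩, by simp⟩
  · rw [Finset.card_image_of_injective _ hinj]; simp
  · intro c hc c' hc' hne
    obtain ⟨i, _, rfl⟩ := Finset.mem_image.1 hc
    obtain ⟨j, _, rfl⟩ := Finset.mem_image.1 hc'
    exact hsq i j (fun h => hne (by rw [h]))
  · rw [Finset.sum_image (fun i _ j _ h => hinj h), Finset.sum_sub_distrib, Finset.sum_const, hg,
      ← Nat.cast_smul_eq_nsmul ℝ, smul_smul]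
    have : ((Finset.univ : Finset (Fin (d + 1))).card : ℝ) * (1 / ((d : ℝ) + 1)) = 1 := by
      simp only [Finset.card_univ, Fintype.card_fin]
      push_cast
      field_simp
    rw [this, one_smul, sub_self]
  · intro x hx
    set u : Fin d → E d := fun i => t i.succ - t 0 with hu
    have hgram : ∀ i j, ⟪u i, u j⟫ = 2 + if i = j then 2 else 0 := by
      intro i j
      simp only [hu]
      rw [inner_sub_sub, hsq _ _ (Fin.succ_ne_zero i), hsq _ _ (Fin.succ_ne_zero j)]
      by_cases h : i = j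
      · rw [h, sub_self, norm_zero, if_pos rfl]; norm_num
      · rw [hsq _ _ (fun hh => h (Fin.succ_injective _ hh)), if_neg h]; norm_num
    have hli : LinearIndependent ℝ u := by
      rw [Fintype.linearIndependent_iff]
      intro μ hμ
      have h1 : ⟪∑ i, μ i • u i, ∑ i, μ i • u i⟫ = 0 := by rw [hμ, inner_zero_left]
      have h2 : ⟪∑ i, μ i • u i, ∑ i, μ i • u i⟫ = 2 * (∑ i, μ i) ^ 2 + 2 * ∑ i, μ i ^ 2 := by
        rw [_root_.sum_inner]
        have : ∀ i, ⟪μ i • u i, ∑ j, μ j • u j⟫ = 2 * (μ i * ∑ j, μ j) + 2 * μ i ^ 2 := by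
          intro i
          rw [inner_smul_left, inner_sum]
          simp only [inner_smul_right, hgram, mul_add, Finset.sum_add_distrib, mul_ite, mul_zero,
            Finset.sum_ite_eq, Finset.mem_univ, if_true, conj_trivial]
          rw [← Finset.sum_mul]; ring
        simp only [this, Finset.sum_add_distrib, ← Finset.mul_sum, ← Finset.sum_mul]
        ring
      have h3 : ∑ i, μ i ^ 2 = 0 := by
        have h4 : 0 ≤ ∑ i, μ i ^ 2 := Finset.sum_nonneg fun i _ => sq_nonneg _
        nlinarith [sq_nonneg (∑ i, μ i)]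
      intro i
      have := (Finset.sum_eq_zero_iff_of_nonneg (fun i _ => sq_nonneg (μ i))).1 h3 i
        (Finset.mem_univ i)
      exact pow_eq_zero_iff two_ne_zero |>.1 this
    have hspan : Submodule.span ℝ (Set.range u) = ⊤ :=
      hli.span_eq_top_of_card_eq_finrank' (by simp)
    have hx' : x ∈ Submodule.span ℝ (Set.range u) := by rw [hspan]; trivial
    obtain ⟨μ, hμ⟩ := (Submodule.mem_span_range_iff_exists_fun ℝ).1 hx'
    have hxu : ∀ i, ⟪x, u i⟫ = 0 := by
      intro i
      have e1 := hx (t i.succ) (Finset.mem_image_of_mem t (Finset.mem_univ _))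
      have e2 := hx (t 0) (Finset.mem_image_of_mem t (Finset.mem_univ _))
      have : u i = (t i.succ - g) - (t 0 - g) := by simp only [hu]; abel
      rw [this, inner_sub_right, e1, e2, sub_zero]
    have : ⟪x, x⟫ = 0 := by
      conv_lhs => enter [3]; rw [← hμ]
      rw [inner_sum]
      exact Finset.sum_eq_zero fun i _ => by rw [inner_smul_right, hxu, mul_zero]
    exact inner_self_eq_zero.1 this

end Pool.Agent.MP_278f54_co.H42
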