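import Pool.Agent.MP_278f54_co.H42.TwoPoint

/-!
Measure theory: slicing along a unit vector, cones over facets, spherical sectors.
-/

open MeasureTheory Set
open scoped ENNReal NNReal RealInnerProductSpace

namespace Pool.Agent.MP_278f54_co.H42

/-- Euclidean space of dimension `m`. -/
abbrev E (m : ℕ) : Type := EuclideanSpace ℝ (Fin m)

lemma exists_slice {m : ℕ} (e : E (m + 1)) (he : ‖e‖ = 1) :
    ∃ κ : E m →ₗᵢ[ℝ] E (m + 1), (∀ w, ⟪e, κ w⟫ = 0) ∧
      (∀ x : E (m + 1), (∀ w, ⟪x, κ w⟫ = 0) → ∃ t : ℝ, x = t • e) ∧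
      ∀ Φ : E (m + 1) → ℝ≥0∞, Measurable Φ →
        ∫⁻ x, Φ x = ∫⁻ t : ℝ, ∫⁻ w : E m, Φ (t • e + κ w) := by
  have hon : Orthonormal ℝ (({0} : Set (Fin (m + 1))).domRestrict (fun _ => e)) := by
    constructor
    · intro i; exact he
    · intro i j hij
      exact absurd (Subsingleton.elim i j) hij
  obtain ⟨b, hb⟩ := hon.exists_orthonormalBasis_extension_of_card_eq (ι := Fin (m + 1)) (by simp)
  have hb0 : b 0 = e := hb 0 rfl
  let L : E m →ₗ[ℝ] E (m + 1) :=
    (EuclideanSpace.basisFun (Fin m) ℝ).toBasis.constr ℝ (fun i => b i.succ)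
  have hL : ∀ i, L (EuclideanSpace.basisFun (Fin m) ℝ i) = b i.succ := by
    intro i
    exact (EuclideanSpace.basisFun (Fin m) ℝ).toBasis.constr_basis ℝ (fun i => b i.succ) i
  have hL2 : ∀ w : E m, L w = ∑ i, w i • b i.succ := by
    intro w
    conv_lhs => rw [← (EuclideanSpace.basisFun (Fin m) ℝ).sum_repr w]
    simp only [map_sum, map_smul, hL, EuclideanSpace.basisFun_repr]
  have hon2 : Orthonormal ℝ (L ∘ (EuclideanSpace.basisFun (Fin m) ℝ).toBasis) := by
    have : (L ∘ (EuclideanSpace.basisFun (Fin m) ℝ).toBasis) = b ∘ Fin.succ := by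
      funext i; exact hL i
    rw [this]
    exact b.orthonormal.comp _ (Fin.succ_injective m)
  let κ := L.isometryOfOrthonormal (v := (EuclideanSpace.basisFun (Fin m) ℝ).toBasis)
    (EuclideanSpace.basisFun (Fin m) ℝ).orthonormal hon2
  have hκ : ∀ w, κ w = ∑ i, w i • b i.succ := hL2
  refine ⟨κ, ?_, ?_, ?_⟩
  · intro w
    rw [hκ, inner_sum, ← hb0]
    refine Finset.sum_eq_zero fun i _ => ?_
    rw [inner_smul_right, b.orthonormal.2 (Fin.succ_ne_zero i).symm, mul_zero]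
  · intro x hx
    refine ⟨⟪e, x⟫, ?_⟩
    conv_lhs => rw [← b.sum_repr' x]
    rw [Fin.sum_univ_succ, hb0]
    have : ∀ i : Fin m, ⟪b i.succ, x⟫ = 0 := by
      intro i
      have h1 : κ (EuclideanSpace.basisFun (Fin m) ℝ i) = b i.succ := hL i
      rw [← h1, real_inner_comm]
      exact hx _
    simp [this]
  · intro Φ hΦ
    have m1 : MeasurePreserving (fun p : ℝ × E m => ((p.1, p.2.ofLp) : ℝ × (Fin m → ℝ))) :=
      (MeasurePreserving.id volume).prod (PiLp.volume_preserving_ofLp (Fin m))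
    have m2 := (volume_preserving_piFinSuccAbove (fun _ : Fin (m + 1) => ℝ) 0).symm
    have m3 := PiLp.volume_preserving_toLp (Fin (m + 1))
    have m4 := b.measurePreserving_repr_symm
    have m5 := m4.comp (m3.comp (m2.comp m1))
    have e1 : (⇑b.repr.symm ∘ WithLp.toLp 2 ∘
        ⇑(MeasurableEquiv.piFinSuccAbove (fun _ : Fin (m + 1) => ℝ) 0).symm ∘
        fun p : ℝ × E m => ((p.1, p.2.ofLp) : ℝ × (Fin m → ℝ)))
        = fun p : ℝ × E m => p.1 • e + κ p.2 := by
      funext p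
      simp only [Function.comp_apply]
      rw [← b.sum_repr_symm, Fin.sum_univ_succ, hb0, hκ]
      simp [MeasurableEquiv.piFinSuccAbove, Fin.insertNthEquiv]
    rw [e1] at m5
    rw [← m5.lintegral_comp hΦ]
    exact lintegral_prod _ (hΦ.comp m5.measurable).aemeasurable

lemma lintegral_E_scale {m : ℕ} {τ : ℝ} (hτ : 0 < τ) {G : E m → ℝ≥0∞} (hG : Measurable G) :
    ∫⁻ w, G w = ENNReal.ofReal (τ ^ m) * ∫⁻ w, G (τ • w) := by
  have h1 := Measure.map_addHaar_smul (volume : Measure (E m)) hτ.ne'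
  have h2 : ∫⁻ w, G (τ • w) = ∫⁻ w, G w ∂(Measure.map (τ • ·) (volume : Measure (E m))) :=
    (lintegral_map hG (measurable_const_smul τ)).symm
  rw [h2, h1, lintegral_smul_measure, smul_eq_mul, ← mul_assoc,
    ← ENNReal.ofReal_mul (by positivity)]
  simp only [finrank_euclideanSpace, Fintype.card_fin]
  rw [abs_of_pos (by positivity), mul_inv_cancel₀ (by positivity)]
  simp

lemma measurableSet_slab {m : ℕ} (q : E m) :
    MeasurableSet {w : E m | 0 < ⟪q, w⟫ ∧ ⟪q, w⟫ < 1} := by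
  have h1 : Measurable (fun w : E m => ⟪q, w⟫) := by fun_prop
  exact (measurableSet_lt measurable_const h1).inter (measurableSet_lt h1 measurable_const)

/-- A set invariant under positive scalings. -/
def IsCone {m : ℕ} (K : Set (E m)) : Prop := ∀ t : ℝ, 0 < t → ∀ w, t • w ∈ K ↔ w ∈ K

/-- Integral over a cone truncated by a hyperplane. -/
lemma facet_formula {m : ℕ} (q : E (m + 1)) (hq : q ≠ 0) :
    ∃ κ : E m →ₗᵢ[ℝ] E (m + 1), (∀ w, ⟪q, κ w⟫ = 0) ∧
      (∀ x : E (m + 1), (∀ w, ⟪x, κ w⟫ = 0) → ∃ t : ℝ, x = t • q) ∧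
      ∀ K : Set (E (m + 1)), MeasurableSet K → IsCone K → ∀ (a : ℝ) (F : ℝ → ℝ≥0∞),
        Measurable F →
        ∫⁻ w in K ∩ {w | 0 < ⟪q, w⟫ ∧ ⟪q, w⟫ < 1}, F (a + ‖w‖ ^ 2)
          = ENNReal.ofReal (1 / ‖q‖) * ∫⁻ w in {w | (1 / ‖q‖ ^ 2) • q + κ w ∈ K},
              Tm m a F (a + 1 / ‖q‖ ^ 2 + ‖w‖ ^ 2) := by
  have hn : 0 < ‖q‖ := norm_pos_iff.2 hq
  set h : ℝ := 1 / ‖q‖ with hh
  have hh0 : 0 < h := by positivity
  set e : E (m + 1) := h • q with he
  have he1 : ‖e‖ = 1 := by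
    rw [he, norm_smul, Real.norm_of_nonneg hh0.le, hh]; field_simp
  have hqe : q = ‖q‖ • e := by
    rw [he, smul_smul, hh, mul_one_div_cancel hn.ne', one_smul]
  obtain ⟨κ, h1, h2, h3⟩ := exists_slice e he1
  have h1' : ∀ w, ⟪q, κ w⟫ = 0 := by
    intro w; rw [hqe, inner_smul_left, h1]; simp
  refine ⟨κ, h1', ?_, ?_⟩
  · intro x hx
    obtain ⟨t, ht⟩ := h2 x hx
    exact ⟨t * h, by rw [ht, he, smul_smul]⟩
  intro K hK hcone a F hF
  have hmeas : MeasurableSet (K ∩ {w : E (m + 1) | 0 < ⟪q, w⟫ ∧ ⟪q, w⟫ < 1}) := by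
    exact hK.inter (measurableSet_slab q)
  have hΦ : Measurable (fun w : E (m + 1) => F (a + ‖w‖ ^ 2)) := hF.comp (by fun_prop)
  have hz : (1 / ‖q‖ ^ 2) • q = h • e := by
    rw [he, smul_smul, hh]; congr 1; field_simp
  have hqt : ∀ (t : ℝ) (w : E m), ⟪q, t • e + κ w⟫ = t * ‖q‖ := by
    intro t w
    rw [inner_add_right, h1', inner_smul_right, add_zero]
    congr 1
    conv_lhs => rw [hqe]
    rw [inner_smul_left, real_inner_self_eq_norm_sq, he1]; simp
  have hnorm : ∀ (t : ℝ) (w : E m), ‖t • e + κ w‖ ^ 2 = t ^ 2 + ‖w‖ ^ 2 := by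
    intro t w
    rw [norm_add_sq_real, inner_smul_left, h1, norm_smul, he1, κ.norm_map]
    simp
  rw [← lintegral_indicator hmeas, h3 _ (hΦ.indicator hmeas), hz]
  set G : ℝ → E m → ℝ≥0∞ := fun t w =>
    K.indicator (fun w : E (m + 1) => F (a + ‖w‖ ^ 2)) (t • e + κ w) with hG
  have hGm : Measurable (Function.uncurry G) := by
    refine (hΦ.indicator hK).comp (f := fun p : ℝ × E m => p.1 • e + κ p.2) ?_
    exact (continuous_fst.smul continuous_const |>.add
      (κ.continuous.comp continuous_snd)).measurable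
  have e1 : ∀ t : ℝ, ∫⁻ w : E m, (K ∩ {w : E (m + 1) | 0 < ⟪q, w⟫ ∧ ⟪q, w⟫ < 1}).indicator
      (fun w : E (m + 1) => F (a + ‖w‖ ^ 2)) (t • e + κ w)
      = (Ioo 0 h).indicator (fun t => ∫⁻ w, G t w) t := by
    intro t
    have hiff : (0 < t * ‖q‖ ∧ t * ‖q‖ < 1) ↔ t ∈ Ioo 0 h := by
      rw [mem_Ioo, hh, lt_div_iff₀ hn, mul_pos_iff_of_pos_right hn]
    by_cases ht : t ∈ Ioo 0 h
    · rw [indicator_of_mem ht]
      refine lintegral_congr fun w => ?_
      have hm : (t • e + κ w ∈ K ∩ {w : E (m + 1) | 0 < ⟪q, w⟫ ∧ ⟪q, w⟫ < 1})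
          ↔ t • e + κ w ∈ K := by
        simp only [mem_inter_iff, mem_ofPred_eq, hqt, hiff, ht, and_true]
      simp only [hG]
      by_cases hw : t • e + κ w ∈ K
      · rw [indicator_of_mem hw, indicator_of_mem (hm.2 hw)]
      · rw [indicator_of_notMem hw, indicator_of_notMem (fun h' => hw (hm.1 h'))]
    · rw [indicator_of_notMem ht]
      refine (lintegral_congr fun w => ?_).trans lintegral_zero
      refine indicator_of_notMem ?_ _
      simp only [mem_inter_iff, mem_ofPred_eq, hqt, hiff, ht, and_false, not_false_eq_true]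
  simp_rw [e1]
  rw [lintegral_indicator measurableSet_Ioo, lintegral_Ioo_scale hh0]
  congr 1
  set S : Set (E m) := {w | h • e + κ w ∈ K} with hS
  have hSm : MeasurableSet S :=
    hK.preimage (continuous_const.add κ.continuous).measurable
  have e2 : ∀ τ ∈ Ioo (0 : ℝ) 1, ∫⁻ w, G (h * τ) w = ∫⁻ w in S,
      ENNReal.ofReal (τ ^ m) * F (a + τ ^ 2 * (a + 1 / ‖q‖ ^ 2 + ‖w‖ ^ 2 - a)) := by
    intro τ hτ
    rw [lintegral_E_scale hτ.1 (hGm.of_uncurry_left),
      ← lintegral_const_mul' _ _ ENNReal.ofReal_ne_top, ← lintegral_indicator hSm]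
    refine lintegral_congr fun w => ?_
    have e3 : (h * τ) • e + κ (τ • w) = τ • (h • e + κ w) := by
      rw [map_smul, smul_add, smul_smul τ h e, mul_comm τ h]
    simp only [hG, e3]
    by_cases hw : w ∈ S
    · rw [indicator_of_mem hw, indicator_of_mem ((hcone τ hτ.1 _).2 hw), norm_smul, mul_pow,
        hnorm, Real.norm_eq_abs, sq_abs, hh]
      congr 2
      rw [div_pow, one_pow]; ring
    · rw [indicator_of_notMem hw, indicator_of_notMem (fun h' => hw ((hcone τ hτ.1 _).1 h')),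
        mul_zero]
  rw [setLIntegral_congr_fun measurableSet_Ioo e2, lintegral_lintegral_swap]
  · rfl
  · refine Measurable.aemeasurable ?_
    refine Measurable.mul ?_ (hF.comp ?_)
    · exact ENNReal.measurable_ofReal.comp (by fun_prop)
    · fun_prop

/-- Integral over a spherical sector. -/
lemma sphere_formula {m : ℕ} (K : Set (E (m + 1))) (hK : MeasurableSet K) (hcone : IsCone K)
    {r : ℝ} (hr : 0 < r) : ∃ c : ℝ≥0∞, ∀ (a : ℝ) (F : ℝ → ℝ≥0∞), Measurable F →
      ∫⁻ w in K ∩ Metric.ball 0 r, F (a + ‖w‖ ^ 2) = c * Tm m a F (a + r ^ 2) := by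
  set μ : Measure (E (m + 1)) := volume with hμ
  set f : Metric.sphere (0 : E (m + 1)) 1 → ℝ≥0∞ := fun u => K.indicator 1 (u : E (m + 1)) with hf
  have hfm : Measurable f := (measurable_one.indicator hK).comp measurable_subtype_coe
  refine ⟨(∫⁻ u, f u ∂μ.toSphere) * ENNReal.ofReal (r ^ (m + 1)), fun a F hF => ?_⟩
  set g : ℝ → ℝ≥0∞ := (Iio r).indicator (fun s => F (a + s ^ 2)) with hg
  have hgm : Measurable g := (hF.comp (by fun_prop)).indicator measurableSet_Iio
  have hmeas : MeasurableSet (K ∩ Metric.ball 0 r) := hK.inter measurableSet_ball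
  have hdim : Module.finrank ℝ (E (m + 1)) - 1 = m := by simp
  have hmp := μ.measurePreserving_homeomorphUnitSphereProd
  rw [hdim] at hmp
  have e1 : ∫⁻ w in K ∩ Metric.ball 0 r, F (a + ‖w‖ ^ 2) ∂μ
      = ∫⁻ p, f p.1 * g (p.2 : ℝ) ∂(μ.toSphere.prod (Measure.volumeIoiPow m)) := by
    rw [← hmp.lintegral_comp_emb (Homeomorph.measurableEmbedding _), ← lintegral_indicator hmeas]
    conv_lhs => rw [← restrict_compl_singleton (μ := μ) 0,
      ← lintegral_subtype_comap (measurableSet_singleton _).compl]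
    refine lintegral_congr fun x => ?_
    have hx : (x : E (m + 1)) ≠ 0 := x.2
    have hxn : 0 < ‖(x : E (m + 1))‖ := norm_pos_iff.2 hx
    simp only [hf, hg, homeomorphUnitSphereProd_apply_snd_coe,
      homeomorphUnitSphereProd_apply_fst_coe]
    have hc := hcone (‖(x : E (m + 1))‖⁻¹) (inv_pos.2 hxn) x
    by_cases h1 : (x : E (m + 1)) ∈ K <;> by_cases h2 : ‖(x : E (m + 1))‖ < r <;>
      simp [indicator, h1, h2, hc]
  have hgm' : Measurable (fun s : Ioi (0 : ℝ) => g (s : ℝ)) := hgm.comp measurable_subtype_coe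
  rw [e1, lintegral_prod_mul hfm.aemeasurable hgm'.aemeasurable, mul_assoc]
  congr 1
  have hd : Measurable (fun s : Ioi (0 : ℝ) => ENNReal.ofReal (s.1 ^ m)) :=
    ENNReal.measurable_ofReal.comp (measurable_subtype_coe.pow_const _)
  rw [Measure.volumeIoiPow, lintegral_withDensity_eq_lintegral_mul _ hd hgm']
  have e2 := lintegral_subtype_comap (μ := (volume : Measure ℝ)) (s := Ioi (0 : ℝ))
    measurableSet_Ioi (fun s => ENNReal.ofReal (s ^ m) * g s)
  refine Eq.trans ?_ (e2.trans ?_)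
  · rfl
  have e3 : ∫⁻ s in Ioi (0 : ℝ), ENNReal.ofReal (s ^ m) * g s
      = ∫⁻ s in Ioo (0 : ℝ) r, ENNReal.ofReal (s ^ m) * F (a + s ^ 2) := by
    have : ∀ s : ℝ, ENNReal.ofReal (s ^ m) * g s
        = (Iio r).indicator (fun s => ENNReal.ofReal (s ^ m) * F (a + s ^ 2)) s := by
      intro s
      by_cases h : s < r <;> simp [hg, indicator, h]
    simp_rw [this]
    rw [lintegral_indicator measurableSet_Iio, Measure.restrict_restrict measurableSet_Iio,
      Iio_inter_Ioi]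
  rw [e3, lintegral_Ioo_scale hr, Tm, pow_succ', ENNReal.ofReal_mul hr.le, mul_assoc]
  congr 1
  rw [← lintegral_const_mul' _ _ ENNReal.ofReal_ne_top]
  refine lintegral_congr fun τ => ?_
  rw [← mul_assoc, ← ENNReal.ofReal_mul (by positivity), mul_pow, mul_pow]
  congr 2
  ring

/-- The cone of directions whose exit facet is the one given by `q`. -/
def pieceCone {m : ℕ} (Q : Finset (E m)) (K : Set (E m)) (q : E m) : Set (E m) :=
  {w | w ∈ K ∧ ∀ q' ∈ Q, q' ≠ q → ⟪q', w⟫ < ⟪q, w⟫}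

lemma measurableSet_pieceCone {m : ℕ} (Q : Finset (E m)) {K : Set (E m)} (hK : MeasurableSet K)
    (q : E m) : MeasurableSet (pieceCone Q K q) := by
  have : pieceCone Q K q = K ∩ ⋂ q' ∈ Q.filter (· ≠ q), {w | ⟪q', w⟫ < ⟪q, w⟫} := by
    ext w; simp [pieceCone]
  rw [this]
  refine hK.inter (Finset.measurableSet_biInter _ fun q' _ => ?_)
  exact measurableSet_lt (by fun_prop) (by fun_prop)

lemma isCone_pieceCone {m : ℕ} (Q : Finset (E m)) {K : Set (E m)} (hK : IsCone K) (q : E m) :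
    IsCone (pieceCone Q K q) := by
  intro t ht w
  simp only [pieceCone, mem_ofPred_eq, hK t ht w, inner_smul_right, mul_lt_mul_iff_right₀ ht]

/-- Decomposition of a polyhedral region into cones over facets. -/
lemma region_decomp {m : ℕ} (Q : Finset (E (m + 1))) {K : Set (E (m + 1))} (hK : MeasurableSet K)
    (hpos : ∀ w ∈ K, w ≠ 0 → ∃ q ∈ Q, 0 < ⟪q, w⟫) (Φ : E (m + 1) → ℝ≥0∞) :
    ∫⁻ w in {w | w ∈ K ∧ ∀ q ∈ Q, ⟪q, w⟫ < 1}, Φ w
      = ∑ q ∈ Q, ∫⁻ w in pieceCone Q K q ∩ {w | 0 < ⟪q, w⟫ ∧ ⟪q, w⟫ < 1}, Φ w := by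
  classical
  rw [← lintegral_biUnion_finset]
  · refine setLIntegral_congr ?_
    have hnull : volume ({(0 : E (m + 1))} ∪
        ⋃ p ∈ (Q ×ˢ Q).filter (fun p => p.1 ≠ p.2), {w : E (m + 1) | ⟪p.1 - p.2, w⟫ = 0}) = 0 := by
      refine measure_union_null (measure_singleton _) ?_
      refine (measure_biUnion_null_iff (Finset.countable_toSet _)).2 fun p hp => ?_
      have hp' : p.1 - p.2 ≠ 0 := by
        simp only [Finset.coe_filter, mem_ofPred_eq] at hp
        exact sub_ne_zero.2 hp.2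
      have := Measure.addHaar_submodule (volume : Measure (E (m + 1)))
        (LinearMap.ker (innerSL ℝ (p.1 - p.2)).toLinearMap) (by
          intro htop
          have : p.1 - p.2 ∈ LinearMap.ker (innerSL ℝ (p.1 - p.2)).toLinearMap := by
            rw [htop]; trivial
          simp only [LinearMap.mem_ker, ContinuousLinearMap.coe_coe, innerSL_apply_apply,
            inner_self_eq_zero] at this
          exact hp' this)
      exact this
    rw [ae_eq_set]
    constructor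
    · refine measure_mono_null ?_ hnull
      rintro w ⟨⟨hwK, hw1⟩, hw⟩
      by_contra hcon
      simp only [mem_union, mem_singleton_iff, mem_iUnion, mem_ofPred_eq, exists_prop, not_or,
        not_exists, not_and, Finset.mem_filter, Finset.mem_product] at hcon
      obtain ⟨q0, hq0, hq0pos⟩ := hpos w hwK hcon.1
      obtain ⟨q, hq, hmax⟩ := Q.exists_max_image (fun q => ⟪q, w⟫) ⟨q0, hq0⟩
      refine hw ?_
      simp only [mem_iUnion, exists_prop]
      refine ⟨q, hq, ⟨hwK, fun q' hq' hne => ?_⟩, lt_of_lt_of_le hq0pos (hmax q0 hq0), hw1 q hq⟩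
      refine lt_of_le_of_ne (hmax q' hq') fun heq => ?_
      refine hcon.2 (q', q) ⟨⟨hq', hq⟩, hne⟩ ?_
      rw [inner_sub_left, heq, sub_self]
    · refine measure_mono_null ?_ (measure_empty (μ := volume))
      rintro w ⟨hw, hw'⟩
      refine hw' ?_
      simp only [mem_iUnion, exists_prop] at hw
      obtain ⟨q, hq, ⟨hwK, hlt⟩, _, h1⟩ := hw
      refine ⟨hwK, fun q' hq' => ?_⟩
      by_cases hne : q' = q
      · rw [hne]; exact h1
      · exact (hlt q' hq' hne).trans h1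
  · intro q hq q' hq' hne
    rw [Function.onFun, Set.disjoint_left]
    rintro w ⟨⟨_, h1⟩, _⟩ ⟨⟨_, h2⟩, _⟩
    exact lt_asymm (h1 q' hq' hne.symm) (h2 q hq hne)
  · intro q _
    exact (measurableSet_pieceCone Q hK q).inter (measurableSet_slab q)

end Pool.Agent.MP_278f54_co.H42
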