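import Pool.Agent.MP_278f54_co.H42.Slice
import Pool.Agent.MP_278f54_co.H42.Key

/-!
Faces of a Voronoi cell of a packing: foot points and the passage to a facet.
-/

open MeasureTheory Set
open scoped ENNReal NNReal RealInnerProductSpace

namespace Pool.Agent.MP_278f54_co.H42

/-- The centres are at distance at least two. -/
def Pack {d : ℕ} (C : Finset (E d)) : Prop := ∀ c ∈ C, ∀ c' ∈ C, c ≠ c' → 4 ≤ ‖c - c'‖ ^ 2

/-- `v` is the circumcentre of `σ`, `a` the squared circumradius and `v + range ι` the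
set of points equidistant from the points of `σ`. -/
structure Good {d m : ℕ} (C σ : Finset (E d)) (v : E d) (ι : E m →ₗᵢ[ℝ] E d) (a : ℝ) : Prop where
  sub : σ ⊆ C
  hdist : ∀ c ∈ σ, ‖c - v‖ ^ 2 = a
  horth : ∀ c ∈ σ, ∀ w, ⟪c - v, ι w⟫ = 0
  hspan : ∀ x : E d, (∀ w, ⟪x, ι w⟫ = 0) →
    ∃ μ : E d → ℝ, ∑ c ∈ σ, μ c = 1 ∧ ∑ c ∈ σ, μ c • (c - v) = x

/-- The open face. -/
def Reg {d m : ℕ} (C σ : Finset (E d)) (v : E d) (ι : E m →ₗᵢ[ℝ] E d) (a : ℝ) : Set (E m) :=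
  {w | ∀ c ∈ C, c ∉ σ → a + ‖w‖ ^ 2 < ‖v + ι w - c‖ ^ 2}

/-- Orthogonal projection. -/
noncomputable def proj {d m : ℕ} (ι : E m →ₗᵢ[ℝ] E d) (x : E d) : E m :=
  LinearMap.adjoint ι.toLinearMap x

lemma inner_proj {d m : ℕ} (ι : E m →ₗᵢ[ℝ] E d) (x : E d) (w : E m) :
    ⟪proj ι x, w⟫ = ⟪x, ι w⟫ := LinearMap.adjoint_inner_left _ _ _

/-- Polar vector of the constraint given by the centre `c`. -/
noncomputable def qv {d m : ℕ} (v : E d) (ι : E m →ₗᵢ[ℝ] E d) (a : ℝ) (c : E d) : E m :=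
  (2 / (‖c - v‖ ^ 2 - a)) • proj ι (c - v)

lemma inner_sub_sub {d : ℕ} (c c' v : E d) :
    ⟪c - v, c' - v⟫ = (‖c - v‖ ^ 2 + ‖c' - v‖ ^ 2 - ‖c - c'‖ ^ 2) / 2 := by
  have : c - c' = (c - v) - (c' - v) := by abel
  rw [this, norm_sub_sq_real (c - v) (c' - v)]; ring

section

variable {d m : ℕ} {C σ : Finset (E d)} {v : E d} {ι : E m →ₗᵢ[ℝ] E d} {a : ℝ}

lemma Good.astar_le (hC : Pack C) (G : Good C σ v ι a) {j : ℕ} (hj : σ.card = j + 1) :
    astar j ≤ a := by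
  classical
  have h0 : 0 ≤ ⟪∑ c ∈ σ, (c - v), ∑ c ∈ σ, (c - v)⟫ := real_inner_self_nonneg
  rw [sum_inner] at h0
  have h1 : ∀ c ∈ σ, ⟪c - v, ∑ c' ∈ σ, (c' - v)⟫ ≤ a + j * (a - 2) := by
    intro c hc
    rw [inner_sum, ← Finset.add_sum_erase _ _ hc, real_inner_self_eq_norm_sq, G.hdist c hc]
    have h2 : ∑ c' ∈ σ.erase c, ⟪c - v, c' - v⟫ ≤ ∑ _c' ∈ σ.erase c, (a - 2) := by
      refine Finset.sum_le_sum fun c' hc' => ?_
      have hc'' := Finset.mem_of_mem_erase hc'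
      have := hC c (G.sub hc) c' (G.sub hc'') (Finset.ne_of_mem_erase hc').symm
      rw [inner_sub_sub, G.hdist c hc, G.hdist c' hc'']; linarith
    rw [Finset.sum_const, Finset.card_erase_of_mem hc, hj] at h2
    simp only [Nat.add_sub_cancel, nsmul_eq_mul] at h2
    linarith
  have h3 := h0.trans (Finset.sum_le_sum h1)
  rw [Finset.sum_const, hj, nsmul_eq_mul] at h3
  have h4 : (0 : ℝ) < ((j + 1 : ℕ) : ℝ) := by positivity
  have h5 : 0 ≤ a + j * (a - 2) := nonneg_of_mul_nonneg_right h3 h4 |>.trans_eq rfl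
  unfold astar
  rw [div_le_iff₀ (by positivity)]
  linarith

lemma Good.a_eq_zero (G : Good C σ v ι a) (hj : σ.card = 0 + 1) : a = 0 := by
  obtain ⟨o, rfl⟩ := Finset.card_eq_one.1 hj
  obtain ⟨μ, h1, h2⟩ := G.hspan 0 (by simp)
  simp only [Finset.sum_singleton] at h1 h2
  rw [h1, one_smul] at h2
  rw [← G.hdist o (by simp), h2]; simp

lemma Good.exists_convex (hC : Pack C) (G : Good C σ v ι a) (ha : a < 2) :
    ∃ μ : E d → ℝ, (∀ c ∈ σ, 0 ≤ μ c) ∧ ∑ c ∈ σ, μ c = 1 ∧ ∑ c ∈ σ, μ c • (c - v) = 0 := by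
  classical
  obtain ⟨μ, h1, h2⟩ := G.hspan 0 (by simp)
  refine ⟨μ, ?_, h1, h2⟩
  by_contra hcon
  push Not at hcon
  obtain ⟨c0, hc0, hc0neg⟩ := hcon
  set P := σ.filter (fun c => 0 ≤ μ c) with hP
  set M := σ.filter (fun c => ¬ 0 ≤ μ c) with hM
  have hsum : ∑ c ∈ P, μ c • (c - v) + ∑ c ∈ M, μ c • (c - v) = 0 := by
    rw [hP, hM, Finset.sum_filter_add_sum_filter_not, h2]
  have hsum1 : ∑ c ∈ P, μ c + ∑ c ∈ M, μ c = 1 := by
    rw [hP, hM, Finset.sum_filter_add_sum_filter_not, h1]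
  have hMneg : ∑ c ∈ M, μ c < 0 := by
    refine Finset.sum_neg' (fun c hc => ?_) ⟨c0, ?_, hc0neg⟩
    · exact (not_le.1 (Finset.mem_filter.1 hc).2).le
    · exact Finset.mem_filter.2 ⟨hc0, not_le.2 hc0neg⟩
  have hPpos : 0 < ∑ c ∈ P, μ c := by linarith
  have hx : ⟪∑ c ∈ P, μ c • (c - v), ∑ c ∈ M, μ c • (c - v)⟫ ≤ 0 := by
    rw [eq_neg_of_add_eq_zero_right hsum, inner_neg_right]
    exact neg_nonpos.2 real_inner_self_nonneg
  have hy : (∑ c ∈ P, μ c) * (∑ c ∈ M, μ c) * (a - 2)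
      ≤ ⟪∑ c ∈ P, μ c • (c - v), ∑ c ∈ M, μ c • (c - v)⟫ := by
    rw [sum_inner, Finset.sum_mul, Finset.sum_mul]
    refine Finset.sum_le_sum fun c hc => ?_
    rw [inner_sum, Finset.mul_sum, Finset.sum_mul]
    refine Finset.sum_le_sum fun c' hc' => ?_
    obtain ⟨hc1, hc2⟩ := Finset.mem_filter.1 hc
    obtain ⟨hc1', hc2'⟩ := Finset.mem_filter.1 hc'
    have hne : c ≠ c' := fun h => hc2' (h ▸ hc2)
    have := hC c (G.sub hc1) c' (G.sub hc1') hne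
    have h3 : ⟪c - v, c' - v⟫ ≤ a - 2 := by
      rw [inner_sub_sub, G.hdist c hc1, G.hdist c' hc1']; linarith
    rw [inner_smul_left, inner_smul_right]
    simp only [conj_trivial]
    have h4 : μ c * μ c' ≤ 0 := mul_nonpos_of_nonneg_of_nonpos hc2 (not_le.1 hc2').le
    nlinarith
  have : 0 < (∑ c ∈ P, μ c) * (∑ c ∈ M, μ c) * (a - 2) :=
    mul_pos_of_neg_of_neg (mul_neg_of_pos_of_neg hPpos hMneg) (by linarith)
  linarith

lemma Good.lt_dist (hC : Pack C) (G : Good C σ v ι a) (ha : a < 2) {c : E d} (hc : c ∈ C)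
    (hcσ : c ∉ σ) : a < ‖c - v‖ ^ 2 := by
  obtain ⟨μ, h0, h1, h2⟩ := G.exists_convex hC ha
  by_contra hcon
  push Not at hcon
  have h3 : ⟪c - v, ∑ c' ∈ σ, μ c' • (c' - v)⟫ ≤ ∑ c' ∈ σ, μ c' * (a - 2) := by
    rw [inner_sum]
    refine Finset.sum_le_sum fun c' hc' => ?_
    rw [inner_smul_right]
    refine mul_le_mul_of_nonneg_left ?_ (h0 c' hc')
    have hne : c ≠ c' := fun h => hcσ (h ▸ hc')
    have := hC c hc c' (G.sub hc') hne
    rw [inner_sub_sub, G.hdist c' hc']; linarith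
  rw [h2, inner_zero_right, ← Finset.sum_mul, h1] at h3
  linarith

lemma constraint_iff {c : E d} (hc : a < ‖c - v‖ ^ 2) (w : E m) :
    a + ‖w‖ ^ 2 < ‖v + ι w - c‖ ^ 2 ↔ ⟪qv v ι a c, w⟫ < 1 := by
  have h1 : v + ι w - c = ι w - (c - v) := by abel
  have h2 : 0 < ‖c - v‖ ^ 2 - a := by linarith
  rw [h1, norm_sub_sq_real, ι.norm_map, qv, inner_smul_left, inner_proj, real_inner_comm]
  simp only [conj_trivial]
  rw [div_mul_eq_mul_div, div_lt_one h2]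
  constructor <;> intro h <;> linarith

open Classical in
/-- The finite set of polar vectors. -/
noncomputable def Qs (C σ : Finset (E d)) (v : E d) (ι : E m →ₗᵢ[ℝ] E d) (a : ℝ) :
    Finset (E m) := (C \ σ).image (qv v ι a)

lemma mem_Qs {q : E m} : q ∈ Qs C σ v ι a ↔ ∃ c ∈ C, c ∉ σ ∧ qv v ι a c = q := by
  simp [Qs, and_assoc]

lemma Good.mem_Reg (hC : Pack C) (G : Good C σ v ι a) (ha : a < 2) (w : E m) :
    w ∈ Reg C σ v ι a ↔ ∀ q ∈ Qs C σ v ι a, ⟪q, w⟫ < 1 := by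
  simp only [Reg, mem_ofPred_eq, mem_Qs]
  constructor
  · rintro h q ⟨c, hc, hcσ, rfl⟩
    exact (constraint_iff (G.lt_dist hC ha hc hcσ) w).1 (h c hc hcσ)
  · intro h c hc hcσ
    exact (constraint_iff (G.lt_dist hC ha hc hcσ) w).2 (h _ ⟨c, hc, hcσ, rfl⟩)

lemma measurableSet_Reg : MeasurableSet (Reg C σ v ι a) := by
  classical
  have : Reg C σ v ι a = ⋂ c ∈ C \ σ, {w | a + ‖w‖ ^ 2 < ‖v + ι w - c‖ ^ 2} := by
    ext w; simp [Reg]
  rw [this]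
  refine Finset.measurableSet_biInter _ fun c _ => ?_
  have hι := ι.continuous
  exact measurableSet_lt (by fun_prop) (Continuous.measurable (by fun_prop))

end

section Step

variable {d m : ℕ} {C σ : Finset (E d)} {v : E d} {ι : E (m + 1) →ₗᵢ[ℝ] E d} {a : ℝ}

open Classical in
lemma Good.step (hC : Pack C) (G : Good C σ v ι a) (ha : a < 2) {c : E d} (hc : c ∈ C)
    (hcσ : c ∉ σ) (hq : qv v ι a c ≠ 0) {κ : E m →ₗᵢ[ℝ] E (m + 1)}
    (h1 : ∀ w, ⟪qv v ι a c, κ w⟫ = 0)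
    (h2 : ∀ x : E (m + 1), (∀ w, ⟪x, κ w⟫ = 0) → ∃ t : ℝ, x = t • qv v ι a c) :
    Good C (insert c σ) (v + ι ((1 / ‖qv v ι a c‖ ^ 2) • qv v ι a c)) (ι.comp κ)
      (a + 1 / ‖qv v ι a c‖ ^ 2) := by
  set q := qv v ι a c with hqdef
  have hn : 0 < ‖q‖ := norm_pos_iff.2 hq
  set z0 := (1 / ‖q‖ ^ 2) • q with hz0
  have hβ : 0 < ‖c - v‖ ^ 2 - a := by linarith [G.lt_dist hC ha hc hcσ]
  set β := (‖c - v‖ ^ 2 - a) / 2 with hβdef
  have hβ0 : 0 < β := by positivity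
  have hp : proj ι (c - v) = β • q := by
    rw [hqdef, qv, smul_smul, hβdef]
    have : (‖c - v‖ ^ 2 - a) / 2 * (2 / (‖c - v‖ ^ 2 - a)) = 1 := by field_simp
    rw [this, one_smul]
  have hz0n : ‖z0‖ ^ 2 = 1 / ‖q‖ ^ 2 := by
    rw [hz0, norm_smul, mul_pow, Real.norm_eq_abs, sq_abs]; field_simp
  have hqz0 : ⟪q, z0⟫ = 1 := by
    rw [hz0, inner_smul_right, real_inner_self_eq_norm_sq]; field_simp
  have hz0κ : ∀ w, ⟪z0, κ w⟫ = 0 := by
    intro w; rw [hz0, inner_smul_left, h1]; simp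
  have hsub : ∀ c' : E d, c' - (v + ι z0) = (c' - v) - ι z0 := fun c' => by abel
  refine ⟨?_, ?_, ?_, ?_⟩
  · exact Finset.insert_subset hc G.sub
  · intro c' hc'
    rw [hsub, norm_sub_sq_real, ι.norm_map, hz0n]
    rcases Finset.mem_insert.1 hc' with rfl | hc'
    · rw [← inner_proj, hp, inner_smul_left, hqz0, hβdef]; simp only [conj_trivial]; ring
    · rw [G.hdist c' hc', G.horth c' hc']; ring
  · intro c' hc' w
    rw [hsub, inner_sub_left]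
    simp only [LinearIsometry.coe_comp, Function.comp_apply]
    rw [ι.inner_map_map, hz0κ, sub_zero]
    rcases Finset.mem_insert.1 hc' with rfl | hc'
    · rw [← inner_proj, hp, inner_smul_left, h1, mul_zero]
    · exact G.horth c' hc' _
  · intro x hx
    obtain ⟨t, ht⟩ := h2 (proj ι x) (fun w => by rw [inner_proj]; exact hx w)
    set θ := (1 / ‖q‖ ^ 2 + t) / β with hθ
    have hperp : ∀ y : E d, ∀ w, ⟪y - ι (proj ι y), ι w⟫ = 0 := by
      intro y w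
      rw [inner_sub_left, ι.inner_map_map, inner_proj, sub_self]
    obtain ⟨μ, hμ1, hμ2⟩ := G.hspan ((x - ι (proj ι x)) - θ • ((c - v) - ι (proj ι (c - v))))
      (fun w => by rw [inner_sub_left, inner_smul_left, hperp, hperp]; simp)
    obtain ⟨ν, hν1, hν2⟩ := G.hspan 0 (by simp)
    have hne : ∀ c' ∈ σ, c' ≠ c := fun c' hc' h => hcσ (h ▸ hc')
    refine ⟨fun c' => if c' = c then θ else μ c' - θ * ν c', ?_, ?_⟩
    · have e1 : ∑ c' ∈ σ, (if c' = c then θ else μ c' - θ * ν c') = ∑ c' ∈ σ, (μ c' - θ * ν c') :=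
        Finset.sum_congr rfl fun c' hc' => if_neg (hne c' hc')
      simp only [Finset.sum_insert hcσ, if_true]
      rw [e1, Finset.sum_sub_distrib, ← Finset.mul_sum, hμ1, hν1]
      ring
    · have e1 : ∑ c' ∈ σ, (if c' = c then θ else μ c' - θ * ν c') • (c' - (v + ι z0))
          = ∑ c' ∈ σ, ((μ c' • (c' - v) - θ • (ν c' • (c' - v)))
            - (μ c' • ι z0 - θ • (ν c' • ι z0))) :=
        Finset.sum_congr rfl fun c' hc' => by rw [if_neg (hne c' hc'), hsub]; module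
      simp only [Finset.sum_insert hcσ, if_true]
      rw [e1, Finset.sum_sub_distrib, Finset.sum_sub_distrib, Finset.sum_sub_distrib,
        ← Finset.smul_sum, ← Finset.smul_sum, ← Finset.sum_smul, ← Finset.sum_smul, hμ1, hν1,
        hμ2, hν2, hsub, ht, hp, hz0, map_smul, map_smul, map_smul]
      have hθβ : θ * β = 1 / ‖q‖ ^ 2 + t := by rw [hθ]; field_simp
      have : θ • β • ι q = (1 / ‖q‖ ^ 2) • ι q + t • ι q := by
        rw [smul_smul, hθβ, add_smul]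
      linear_combination (norm := module) this

open Classical in
lemma Good.piece_iff (hC : Pack C) (G : Good C σ v ι a) (ha : a < 2) {c : E d} (hc : c ∈ C)
    (hcσ : c ∉ σ) (hq : qv v ι a c ≠ 0) {κ : E m →ₗᵢ[ℝ] E (m + 1)}
    (h1 : ∀ w, ⟪qv v ι a c, κ w⟫ = 0)
    (h2 : ∀ x : E (m + 1), (∀ w, ⟪x, κ w⟫ = 0) → ∃ t : ℝ, x = t • qv v ι a c)
    (ha' : a + 1 / ‖qv v ι a c‖ ^ 2 < 2) :
    (∀ c' ∈ C, c' ∉ σ → c' ≠ c → qv v ι a c' ≠ qv v ι a c) ∧
    ∀ (K : Set (E (m + 1))) (w : E m),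
      (1 / ‖qv v ι a c‖ ^ 2) • qv v ι a c + κ w ∈ pieceCone (Qs C σ v ι a) K (qv v ι a c) ↔
      ((1 / ‖qv v ι a c‖ ^ 2) • qv v ι a c + κ w ∈ K ∧
        w ∈ Reg C (insert c σ) (v + ι ((1 / ‖qv v ι a c‖ ^ 2) • qv v ι a c)) (ι.comp κ)
          (a + 1 / ‖qv v ι a c‖ ^ 2)) := by
  have G' := G.step hC ha hc hcσ hq h1 h2
  set q := qv v ι a c with hqdef
  have hn : 0 < ‖q‖ := norm_pos_iff.2 hq
  set z0 := (1 / ‖q‖ ^ 2) • q with hz0
  have hz0n : ‖z0‖ ^ 2 = 1 / ‖q‖ ^ 2 := by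
    rw [hz0, norm_smul, mul_pow, Real.norm_eq_abs, sq_abs]; field_simp
  have hqz0 : ⟪q, z0⟫ = 1 := by
    rw [hz0, inner_smul_right, real_inner_self_eq_norm_sq]; field_simp
  have hz0κ : ∀ w, ⟪z0, κ w⟫ = 0 := by
    intro w; rw [hz0, inner_smul_left, h1]; simp
  have hqz : ∀ w, ⟪q, z0 + κ w⟫ = 1 := by
    intro w; rw [inner_add_right, hqz0, h1, add_zero]
  have hreg : ∀ w : E m, w ∈ Reg C (insert c σ) (v + ι z0) (ι.comp κ) (a + 1 / ‖q‖ ^ 2) ↔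
      ∀ c' ∈ C, c' ∉ σ → c' ≠ c → ⟪qv v ι a c', z0 + κ w⟫ < 1 := by
    intro w
    have e1 : a + 1 / ‖q‖ ^ 2 + ‖w‖ ^ 2 = a + ‖z0 + κ w‖ ^ 2 := by
      rw [norm_add_sq_real, hz0n, hz0κ, κ.norm_map]; ring
    have e2 : v + ι z0 + (ι.comp κ) w = v + ι (z0 + κ w) := by
      simp [add_assoc]
    simp only [Reg, mem_ofPred_eq, Finset.mem_insert, not_or, e1, e2]
    constructor
    · intro h c' hc' hc'σ hne
      exact (constraint_iff (G.lt_dist hC ha hc' hc'σ) _).1 (h c' hc' ⟨hne, hc'σ⟩)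
    · intro h c' hc' hh
      exact (constraint_iff (G.lt_dist hC ha hc' hh.2) _).2 (h c' hc' hh.2 hh.1)
  have hinj : ∀ c' ∈ C, c' ∉ σ → c' ≠ c → qv v ι a c' ≠ q := by
    intro c' hc' hc'σ hne heq
    have h0 : (0 : E m) ∈ Reg C (insert c σ) (v + ι z0) (ι.comp κ) (a + 1 / ‖q‖ ^ 2) := by
      intro c'' hc'' hc''σ
      have := G'.lt_dist hC ha' hc'' hc''σ
      rw [map_zero, add_zero, norm_zero, norm_sub_rev]
      linarith
    have := (hreg 0).1 h0 c' hc' hc'σ hne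
    rw [heq, hqz] at this
    exact lt_irrefl _ this
  refine ⟨hinj, fun K w => ?_⟩
  rw [hreg, pieceCone, mem_ofPred_eq, hqz]
  refine and_congr_right fun _ => ?_
  constructor
  · intro h c' hc' hc'σ hne
    exact h _ (mem_Qs.2 ⟨c', hc', hc'σ, rfl⟩) (hinj c' hc' hc'σ hne)
  · intro h q' hq' hne
    obtain ⟨c', hc', hc'σ, rfl⟩ := mem_Qs.1 hq'
    exact h c' hc' hc'σ (fun hh => hne (by rw [hh]))

end Step

end Pool.Agent.MP_278f54_co.H42
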