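import Pool.Agent.MP_278f54_co.H42.TwoPoint

/-!
Functions of the form `y ↦ ∫ (y + c) ^ (-γ) dμ(c)` and their behaviour under the cone operator.
-/

open MeasureTheory Set
open scoped ENNReal NNReal

namespace Pool.Agent.MP_278f54_co.H42

/-- The kernel. -/
noncomputable def ker (γ x : ℝ) : ℝ≥0∞ := ENNReal.ofReal (x ^ (-γ))

lemma measurable_ker (γ : ℝ) : Measurable (ker γ) := by
  unfold ker
  exact ENNReal.measurable_ofReal.comp (measurable_id.pow_const _)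

lemma ker_ne_top (γ x : ℝ) : ker γ x ≠ ⊤ := ENNReal.ofReal_ne_top

lemma ker_ne_zero (γ : ℝ) {x : ℝ} (hx : 0 < x) : ker γ x ≠ 0 := by
  simp only [ker, ne_eq, ENNReal.ofReal_eq_zero, not_le]
  exact Real.rpow_pos_of_pos hx _

lemma ker_mul_le {γ : ℝ} (hγ : 0 ≤ γ) {x1 x2 x3 x4 : ℝ} (h1 : 0 < x1) (h2 : 0 < x2)
    (h3 : 0 < x3) (h4 : 0 < x4) (h : x1 * x4 ≤ x2 * x3) :
    ker γ x2 * ker γ x3 ≤ ker γ x1 * ker γ x4 := by
  unfold ker
  rw [← ENNReal.ofReal_mul (Real.rpow_nonneg h2.le _),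
    ← ENNReal.ofReal_mul (Real.rpow_nonneg h1.le _), ← Real.mul_rpow h2.le h3.le,
    ← Real.mul_rpow h1.le h4.le]
  exact ENNReal.ofReal_le_ofReal
    (Real.rpow_le_rpow_of_nonpos (mul_pos h1 h4) h (by linarith))

lemma ker_anti {γ : ℝ} (hγ : 0 ≤ γ) {x y : ℝ} (hx : 0 < x) (hxy : x ≤ y) :
    ker γ y ≤ ker γ x := by
  unfold ker
  exact ENNReal.ofReal_le_ofReal (Real.rpow_le_rpow_of_nonpos hx hxy (by linarith))

/-- `f` is a generalized Stieltjes transform of order `γ` on `[1, ∞)`. -/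
def St (γ : ℝ) (f : ℝ → ℝ≥0∞) : Prop :=
  ∃ μ : Measure ℝ≥0, SFinite μ ∧ ∀ y, 1 ≤ y → f y = ∫⁻ c, ker γ (y + (c : ℝ)) ∂μ

lemma measurable_ker_shift (γ y : ℝ) : Measurable (fun c : ℝ≥0 => ker γ (y + (c : ℝ))) :=
  (measurable_ker γ).comp (by fun_prop)

lemma St.anti {γ : ℝ} (hγ : 0 ≤ γ) {f : ℝ → ℝ≥0∞} (h : St γ f) {y y' : ℝ} (hy : 1 ≤ y)
    (hyy : y ≤ y') : f y' ≤ f y := by
  obtain ⟨μ, _, hμ⟩ := h
  rw [hμ y hy, hμ y' (hy.trans hyy)]
  refine lintegral_mono fun c => ?_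
  have : (0 : ℝ) ≤ c := c.2
  exact ker_anti hγ (by linarith) (by linarith)

lemma four_real {A B C D : ℝ} (hA : 0 < A) (h1 : C ≤ A) (h2 : D ≤ A) (h3 : C * D ≤ A * B) :
    C + D ≤ A + B := by
  have : 0 ≤ (A - C) * (A - D) := mul_nonneg (by linarith) (by linarith)
  have h4 : A * (C + D) ≤ A * (A + B) := by nlinarith
  exact le_of_mul_le_mul_left h4 hA

lemma four_ennreal {A B C D : ℝ≥0∞} (a1 : A ≠ ⊤) (a2 : B ≠ ⊤) (a3 : C ≠ ⊤) (a4 : D ≠ ⊤)
    (hA : A ≠ 0) (h1 : C ≤ A) (h2 : D ≤ A) (h3 : C * D ≤ A * B) : C + D ≤ A + B := by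
  lift A to ℝ≥0 using a1
  lift B to ℝ≥0 using a2
  lift C to ℝ≥0 using a3
  lift D to ℝ≥0 using a4
  have hA' : (0 : ℝ) < A := by
    have : A ≠ 0 := by simpa using hA
    positivity
  norm_cast at h1 h2 h3 ⊢
  have := four_real (A := A) (B := B) (C := C) (D := D) hA' (by exact_mod_cast h1)
    (by exact_mod_cast h2) (by exact_mod_cast h3)
  exact_mod_cast this

/-- Logarithmic convexity in a four point form. -/
lemma St.logconvex {γ : ℝ} (hγ : 0 ≤ γ) {f : ℝ → ℝ≥0∞} (h : St γ f) {y1 y2 y3 y4 : ℝ}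
    (h1 : 1 ≤ y1) (h4 : 1 ≤ y4) (h12 : y1 ≤ y2) (h13 : y1 ≤ y3) (hs : y1 + y4 ≤ y2 + y3) :
    f y2 * f y3 ≤ f y1 * f y4 := by
  obtain ⟨μ, _, hμ⟩ := h
  rw [hμ y1 h1, hμ y2 (by linarith), hμ y3 (by linarith), hμ y4 h4]
  refine lintegral_mul_le_of_two_point μ (measurable_ker_shift _ _) (measurable_ker_shift _ _)
    (measurable_ker_shift _ _) (measurable_ker_shift _ _) (s := univ) (by simp) ?_
  have aux : ∀ x1 x2 x3 x4 : ℝ, 0 < x1 → 0 < x4 → x1 ≤ x2 → x1 ≤ x3 → x1 + x4 ≤ x2 + x3 →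
      ker γ x2 * ker γ x3 ≤ ker γ x1 * ker γ x4 := by
    intro x1 x2 x3 x4 p1 p4 p12 p13 ps
    refine ker_mul_le hγ p1 (by linarith) (by linarith) p4 ?_
    nlinarith [mul_nonneg (sub_nonneg.2 p12) (sub_nonneg.2 p13)]
  have main : ∀ c c' : ℝ≥0, c ≤ c' →
      ker γ (y2 + c) * ker γ (y3 + c') + ker γ (y2 + c') * ker γ (y3 + c)
        ≤ ker γ (y1 + c) * ker γ (y4 + c') + ker γ (y1 + c') * ker γ (y4 + c) := by
    intro c c' hcc
    have hc : (0 : ℝ) ≤ c := c.2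
    have hcc' : (c : ℝ) ≤ c' := hcc
    refine four_ennreal (ENNReal.mul_ne_top (ker_ne_top _ _) (ker_ne_top _ _))
      (ENNReal.mul_ne_top (ker_ne_top _ _) (ker_ne_top _ _))
      (ENNReal.mul_ne_top (ker_ne_top _ _) (ker_ne_top _ _))
      (ENNReal.mul_ne_top (ker_ne_top _ _) (ker_ne_top _ _))
      (mul_ne_zero (ker_ne_zero _ (by linarith)) (ker_ne_zero _ (by linarith))) ?_ ?_ ?_
    · exact aux _ _ _ _ (by linarith) (by linarith) (by linarith) (by linarith) (by linarith)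
    · exact aux _ _ _ _ (by linarith) (by linarith) (by linarith) (by linarith) (by linarith)
    · have e1 := aux (y1 + c) (y2 + c) (y3 + c) (y4 + c) (by linarith) (by linarith)
        (by linarith) (by linarith) (by linarith)
      have e2 := aux (y1 + c') (y2 + c') (y3 + c') (y4 + c') (by linarith) (by linarith)
        (by linarith) (by linarith) (by linarith)
      calc _ = (ker γ (y2 + c) * ker γ (y3 + c)) * (ker γ (y2 + c') * ker γ (y3 + c')) := by ring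
        _ ≤ (ker γ (y1 + c) * ker γ (y4 + c)) * (ker γ (y1 + c') * ker γ (y4 + c')) := by gcongr
        _ = _ := by ring
  intro c _ c' _
  rcases le_total c c' with hcc | hcc
  · exact main c c' hcc
  · have := main c' c hcc
    rw [add_comm, add_comm (ker γ (y1 + c') * _)] at this
    exact this

/-- The cone operator applied to the kernel. -/
lemma Tm_ker (k : ℕ) {A B : ℝ} (hA : 0 < A) (hAB : 0 < A + B) :
    ∫⁻ τ in Ioo (0 : ℝ) 1, ENNReal.ofReal (τ ^ k) * ker ((k + 3) / 2) (A + τ ^ 2 * B)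
      = ENNReal.ofReal (1 / ((k + 1) * A)) * ker ((k + 1) / 2) (A + B) := by
  have hpos : ∀ τ ∈ Icc (0 : ℝ) 1, 0 < A + τ ^ 2 * B := by
    intro τ hτ
    have h1 : τ ^ 2 ≤ 1 := pow_le_one₀ hτ.1 hτ.2
    have h0 : 0 ≤ τ ^ 2 := sq_nonneg τ
    rcases eq_or_lt_of_le h1 with h | h
    · rw [h]; linarith
    · nlinarith [mul_nonneg h0 hAB.le, mul_pos (sub_pos.2 h) hA]
  have hderiv : ∀ τ ∈ uIcc (0 : ℝ) 1, HasDerivAt
      (fun τ : ℝ => τ ^ (k + 1) * (A + τ ^ 2 * B) ^ (-(((k : ℝ) + 1) / 2)) / ((k + 1) * A))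
      (τ ^ k * (A + τ ^ 2 * B) ^ (-(((k : ℝ) + 3) / 2))) τ := by
    intro τ hτ
    rw [uIcc_of_le zero_le_one] at hτ
    have hp := hpos τ hτ
    have d1 : HasDerivAt (fun τ : ℝ => A + τ ^ 2 * B) (2 * τ * B) τ := by
      simpa using ((hasDerivAt_pow 2 τ).mul_const B).const_add A
    have d2 := d1.rpow_const (p := -(((k : ℝ) + 1) / 2)) (Or.inl hp.ne')
    have d3 := ((hasDerivAt_pow (k + 1) τ).mul d2).div_const (((k : ℝ) + 1) * A)
    refine HasDerivAt.congr_deriv d3 ?_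
    have e1 : (A + τ ^ 2 * B) ^ (-(((k : ℝ) + 1) / 2))
        = (A + τ ^ 2 * B) ^ (-(((k : ℝ) + 3) / 2)) * (A + τ ^ 2 * B) := by
      rw [← Real.rpow_add_one hp.ne']; congr 1; ring
    have e2 : (A + τ ^ 2 * B) ^ (-(((k : ℝ) + 1) / 2) - 1)
        = (A + τ ^ 2 * B) ^ (-(((k : ℝ) + 3) / 2)) := by
      congr 1; ring
    rw [e1, e2]
    have : (k : ℝ) + 1 ≠ 0 := by positivity
    simp only [Nat.add_sub_cancel]
    push_cast
    field_simp
    ring
  have hcont : ContinuousOn (fun τ : ℝ => τ ^ k * (A + τ ^ 2 * B) ^ (-(((k : ℝ) + 3) / 2)))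
      (uIcc (0 : ℝ) 1) := by
    rw [uIcc_of_le zero_le_one]
    refine ContinuousOn.mul (by fun_prop) ?_
    refine ContinuousOn.rpow_const (by fun_prop) ?_
    intro τ hτ
    exact Or.inl (hpos τ hτ).ne'
  have hint := intervalIntegral.integral_eq_sub_of_hasDerivAt hderiv hcont.intervalIntegrable
  have hL : ∫⁻ τ in Ioo (0 : ℝ) 1, ENNReal.ofReal (τ ^ k) * ker ((k + 3) / 2) (A + τ ^ 2 * B)
      = ∫⁻ τ in Ioc (0 : ℝ) 1,
        ENNReal.ofReal (τ ^ k * (A + τ ^ 2 * B) ^ (-(((k : ℝ) + 3) / 2))) := by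
    rw [← Measure.restrict_congr_set Ioo_ae_eq_Ioc]
    refine setLIntegral_congr_fun measurableSet_Ioo fun τ hτ => ?_
    simp only [ker]
    rw [ENNReal.ofReal_mul (pow_nonneg hτ.1.le _)]
  rw [hL, ← ofReal_integral_eq_lintegral_ofReal hcont.intervalIntegrable.1,
    ← intervalIntegral.integral_of_le zero_le_one, hint]
  · unfold ker
    rw [← ENNReal.ofReal_mul (by positivity)]
    congr 1
    simp only [one_pow, one_mul, ne_eq, Nat.add_eq_zero_iff, one_ne_zero, and_false,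
      not_false_eq_true, zero_pow, zero_mul, zero_div, sub_zero]
    ring
  · filter_upwards [ae_restrict_mem measurableSet_Ioc] with τ hτ
    exact mul_nonneg (pow_nonneg hτ.1.le _) (Real.rpow_nonneg (hpos τ ⟨hτ.1.le, hτ.2⟩).le _)

/-- Formula for the cone operator on a Stieltjes transform. -/
lemma St.Tm_formula {k : ℕ} {f : ℝ → ℝ≥0∞} (h : St ((k + 3) / 2) f) :
    ∃ μ : Measure ℝ≥0, SFinite μ ∧ ∀ a z : ℝ, 1 ≤ a → 1 ≤ z → Tm k a f z
      = ∫⁻ c, ENNReal.ofReal (1 / ((k + 1) * (a + (c : ℝ)))) * ker ((k + 1) / 2) (z + c) ∂μ := by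
  obtain ⟨μ, hs, hμ⟩ := h
  refine ⟨μ, hs, fun a z ha hz => ?_⟩
  unfold Tm
  have e1 : ∀ τ ∈ Ioo (0 : ℝ) 1, ENNReal.ofReal (τ ^ k) * f (a + τ ^ 2 * (z - a))
      = ∫⁻ c, ENNReal.ofReal (τ ^ k) * ker ((k + 3) / 2) ((a + (c : ℝ)) + τ ^ 2 * (z - a)) ∂μ := by
    intro τ hτ
    have h1 : τ ^ 2 ≤ 1 := pow_le_one₀ hτ.1.le hτ.2.le
    have h0 : 0 ≤ τ ^ 2 := sq_nonneg τ
    rw [hμ _ (by nlinarith), lintegral_const_mul' _ _ ENNReal.ofReal_ne_top]
    congr 1
    refine lintegral_congr fun c => ?_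
    congr 1; ring
  rw [setLIntegral_congr_fun measurableSet_Ioo e1, lintegral_lintegral_swap]
  · refine lintegral_congr fun c => ?_
    have hc : (0 : ℝ) ≤ c := c.2
    rw [Tm_ker k (by linarith) (by linarith)]
    congr 2; ring
  · refine Measurable.aemeasurable ?_
    refine Measurable.mul ?_ ((measurable_ker _).comp ?_)
    · exact ENNReal.measurable_ofReal.comp (by fun_prop)
    · fun_prop

lemma St.Tm {k : ℕ} {f : ℝ → ℝ≥0∞} (h : St ((k + 3) / 2) f) {a : ℝ} (ha : 1 ≤ a) :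
    St ((k + 1) / 2) (Tm k a f) := by
  obtain ⟨μ, hs, hμ⟩ := h.Tm_formula
  have hm : Measurable (fun c : ℝ≥0 => ENNReal.ofReal (1 / ((k + 1) * (a + (c : ℝ))))) :=
    ENNReal.measurable_ofReal.comp (by fun_prop)
  refine ⟨μ.withDensity (fun c => ENNReal.ofReal (1 / ((k + 1) * (a + (c : ℝ))))),
    inferInstance, fun z hz => ?_⟩
  rw [hμ a z ha hz, lintegral_withDensity_eq_lintegral_mul _ hm (measurable_ker_shift _ _)]
  rfl

/-- Total positivity of the cone operator in the apex and the end point. -/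
lemma St.Tm_tp2 {k : ℕ} {f : ℝ → ℝ≥0∞} (h : St ((k + 3) / 2) f) {a a' z z' : ℝ}
    (ha : 1 ≤ a) (haa : a ≤ a') (hz : 1 ≤ z) (hzz : z ≤ z') :
    H42.Tm k a' f z * H42.Tm k a f z' ≤ H42.Tm k a' f z' * H42.Tm k a f z := by
  obtain ⟨μ, hs, hμ⟩ := h.Tm_formula
  rw [hμ a z ha hz, hμ a' z (by linarith) hz, hμ a z' ha (by linarith),
    hμ a' z' (by linarith) (by linarith)]
  have hm : ∀ a z : ℝ, Measurable (fun c : ℝ≥0 =>
      ENNReal.ofReal (1 / ((k + 1) * (a + (c : ℝ)))) * ker ((k + 1) / 2) (z + c)) := by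
    intro a z
    exact (ENNReal.measurable_ofReal.comp (by fun_prop)).mul (measurable_ker_shift _ _)
  refine lintegral_mul_le_of_two_point μ (hm _ _) (hm _ _) (hm _ _) (hm _ _) (s := univ)
    (by simp) ?_
  have hk : (0 : ℝ) < (k : ℝ) + 1 := by positivity
  have main : ∀ c c' : ℝ≥0, c ≤ c' →
      ENNReal.ofReal (1 / ((k + 1) * (a' + (c : ℝ)))) * ker ((k + 1) / 2) (z + c) *
        (ENNReal.ofReal (1 / ((k + 1) * (a + (c' : ℝ)))) * ker ((k + 1) / 2) (z' + c')) +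
      ENNReal.ofReal (1 / ((k + 1) * (a' + (c' : ℝ)))) * ker ((k + 1) / 2) (z + c') *
        (ENNReal.ofReal (1 / ((k + 1) * (a + (c : ℝ)))) * ker ((k + 1) / 2) (z' + c)) ≤
      ENNReal.ofReal (1 / ((k + 1) * (a' + (c : ℝ)))) * ker ((k + 1) / 2) (z' + c) *
        (ENNReal.ofReal (1 / ((k + 1) * (a + (c' : ℝ)))) * ker ((k + 1) / 2) (z + c')) +
      ENNReal.ofReal (1 / ((k + 1) * (a' + (c' : ℝ)))) * ker ((k + 1) / 2) (z' + c') *
        (ENNReal.ofReal (1 / ((k + 1) * (a + (c : ℝ)))) * ker ((k + 1) / 2) (z + c)) := by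
    intro c c' hcc
    have hc : (0 : ℝ) ≤ c := c.2
    have hcc' : (c : ℝ) ≤ c' := hcc
    have p1 : 0 < a + c := by linarith
    have p2 : 0 < a + c' := by linarith
    have p3 : 0 < a' + c := by linarith
    have p4 : 0 < a' + c' := by linarith
    have hu : ENNReal.ofReal (1 / ((k + 1) * (a' + (c : ℝ)))) *
        ENNReal.ofReal (1 / ((k + 1) * (a + (c' : ℝ)))) ≤
        ENNReal.ofReal (1 / ((k + 1) * (a' + (c' : ℝ)))) *
        ENNReal.ofReal (1 / ((k + 1) * (a + (c : ℝ)))) := by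
      rw [← ENNReal.ofReal_mul (by positivity), ← ENNReal.ofReal_mul (by positivity)]
      refine ENNReal.ofReal_le_ofReal ?_
      rw [div_mul_div_comm, div_mul_div_comm, mul_one]
      refine one_div_le_one_div_of_le (by positivity) ?_
      have : (a' + c') * (a + c) ≤ (a' + c) * (a + c') := by
        nlinarith [mul_nonneg (sub_nonneg.2 haa) (sub_nonneg.2 hcc')]
      nlinarith [mul_le_mul_of_nonneg_left this (mul_pos hk hk).le]
    have hv : ker ((k + 1) / 2) (z' + c) * ker ((k + 1) / 2) (z + c') ≤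
        ker ((k + 1) / 2) (z + c) * ker ((k + 1) / 2) (z' + c') := by
      refine ker_mul_le (by positivity) (by linarith) (by linarith) (by linarith) (by linarith) ?_
      nlinarith [mul_nonneg (sub_nonneg.2 hzz) (sub_nonneg.2 hcc')]
    set U1 := ENNReal.ofReal (1 / ((k + 1) * (a' + (c : ℝ)))) *
        ENNReal.ofReal (1 / ((k + 1) * (a + (c' : ℝ)))) with hU1
    set U2 := ENNReal.ofReal (1 / ((k + 1) * (a' + (c' : ℝ)))) *
        ENNReal.ofReal (1 / ((k + 1) * (a + (c : ℝ)))) with hU2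
    set V1 := ker ((k + 1) / 2) (z' + c) * ker ((k + 1) / 2) (z + c') with hV1
    set V2 := ker ((k + 1) / 2) (z + c) * ker ((k + 1) / 2) (z' + c') with hV2
    calc _ = U1 * V2 + U2 * V1 := by rw [hU1, hU2, hV1, hV2]; ring
      _ ≤ U1 * V1 + U2 * V2 := by
        obtain ⟨u, hu'⟩ := exists_add_of_le hu
        obtain ⟨v, hv'⟩ := exists_add_of_le hv
        rw [hu', hv']
        calc U1 * (V1 + v) + (U1 + u) * V1 = U1 * V1 + (U1 * V1 + U1 * v + u * V1) := by ring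
          _ ≤ U1 * V1 + (U1 * V1 + U1 * v + u * V1 + u * v) := add_le_add le_rfl le_self_add
          _ = _ := by ring
      _ = _ := by rw [hU1, hU2, hV1, hV2]; ring
  intro c _ c' _
  rcases le_total c c' with hcc | hcc
  · exact main c c' hcc
  · have := main c' c hcc
    rw [add_comm, add_comm (ENNReal.ofReal (1 / ((k + 1) * (a' + (c' : ℝ)))) *
      ker ((k + 1) / 2) (z' + c') * _)] at this
    exact this

/-- Raising the order by one half. -/
lemma St.lift {γ : ℝ} (hγ : 1 / 2 ≤ γ) {f : ℝ → ℝ≥0∞} (h : St γ f) : St (γ + 1 / 2) f := by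
  obtain ⟨μ, hs, hμ⟩ := h
  set C : ℝ≥0∞ := ∫⁻ r : ℝ, ker (γ + 1 / 2) (1 + r ^ 2) with hC
  have hCtop : C ≠ ⊤ := by
    have h1 : C ≤ ∫⁻ r : ℝ, ENNReal.ofReal ((1 + r ^ 2)⁻¹) := by
      refine lintegral_mono fun r => ?_
      unfold ker
      refine ENNReal.ofReal_le_ofReal ?_
      rw [← Real.rpow_neg_one]
      exact Real.rpow_le_rpow_of_exponent_le (by nlinarith [sq_nonneg r]) (by linarith)
    exact ne_top_of_le_ne_top (integrable_inv_one_add_sq.lintegral_lt_top).ne h1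
  have hm1 : Measurable (fun r : ℝ => ker (γ + 1 / 2) (1 + r ^ 2)) :=
    (measurable_ker _).comp (by fun_prop)
  have hC0 : C ≠ 0 := by
    rw [hC, ← pos_iff_ne_zero, lintegral_pos_iff_support hm1]
    have : Function.support (fun r : ℝ => ker (γ + 1 / 2) (1 + r ^ 2)) = univ := by
      ext r
      simp only [Function.mem_support, mem_univ, iff_true]
      exact ker_ne_zero _ (by positivity)
    rw [this]; simp
  have hx : ∀ x : ℝ, 0 < x → ∫⁻ r : ℝ, ker (γ + 1 / 2) (x + r ^ 2) = C * ker γ x := by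
    intro x hx
    have hs : 0 < Real.sqrt x := Real.sqrt_pos.2 hx
    rw [lintegral_real_scale hs]
    have e1 : ∀ r : ℝ, ker (γ + 1 / 2) (x + (Real.sqrt x * r) ^ 2)
        = ker (γ + 1 / 2) x * ker (γ + 1 / 2) (1 + r ^ 2) := by
      intro r
      unfold ker
      rw [← ENNReal.ofReal_mul (Real.rpow_nonneg hx.le _),
        ← Real.mul_rpow hx.le (by positivity), mul_pow, Real.sq_sqrt hx.le]
      congr 2; ring
    simp_rw [e1]
    rw [lintegral_const_mul _ hm1, ← hC, ← mul_assoc, mul_comm]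
    congr 1
    unfold ker
    rw [← ENNReal.ofReal_mul hs.le, Real.sqrt_eq_rpow, ← Real.rpow_add hx]
    congr 2; ring
  have hmap : Measurable (fun p : ℝ≥0 × ℝ => p.1 + ‖p.2‖₊ ^ 2) := by fun_prop
  refine ⟨Measure.map (fun p : ℝ≥0 × ℝ => p.1 + ‖p.2‖₊ ^ 2) ((C⁻¹ • μ).prod volume),
    inferInstance, fun y hy => ?_⟩
  have hm2 : Measurable (fun p : ℝ≥0 × ℝ =>
      ker (γ + 1 / 2) (y + ((p.1 + ‖p.2‖₊ ^ 2 : ℝ≥0) : ℝ))) :=
    (measurable_ker_shift _ _).comp hmap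
  rw [lintegral_map (measurable_ker_shift _ _) hmap, lintegral_prod _ hm2.aemeasurable,
    lintegral_smul_measure, hμ y hy]
  have e2 : ∀ c : ℝ≥0, ∫⁻ r : ℝ, ker (γ + 1 / 2) (y + ((c + ‖r‖₊ ^ 2 : ℝ≥0) : ℝ))
      = C * ker γ (y + c) := by
    intro c
    have hc : (0 : ℝ) ≤ c := c.2
    rw [← hx (y + c) (by linarith)]
    refine lintegral_congr fun r => ?_
    congr 1
    push_cast
    rw [Real.norm_eq_abs, sq_abs]; ring
  simp only [e2]
  rw [lintegral_const_mul _ (measurable_ker_shift _ _), smul_eq_mul, ← mul_assoc,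
    ENNReal.inv_mul_cancel hC0 hCtop, one_mul]

end Pool.Agent.MP_278f54_co.H42
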