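import Mathlib

/-!
Elementary tools: a two point (Chebyshev type) inequality for Lebesgue integrals,
scaling of integrals on an interval, and the cone operator `Tm`.
-/

open MeasureTheory Set
open scoped ENNReal NNReal

namespace Pool.Agent.MP_278f54_co.H42

lemma lintegral_lintegral_sym {α : Type*} [MeasurableSpace α] (μ : Measure α)
    {f g : α → ℝ≥0∞} (hf : Measurable f) (hg : Measurable g) :
    ∫⁻ x, ∫⁻ y, (f x * g y + f y * g x) ∂μ ∂μ = 2 * ((∫⁻ x, f x ∂μ) * ∫⁻ x, g x ∂μ) := by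
  have h1 : ∀ x, ∫⁻ y, (f x * g y + f y * g x) ∂μ
      = f x * (∫⁻ y, g y ∂μ) + (∫⁻ y, f y ∂μ) * g x := by
    intro x
    rw [lintegral_add_left (hg.const_mul _), lintegral_const_mul _ hg, lintegral_mul_const _ hf]
  simp_rw [h1]
  rw [lintegral_add_left (hf.mul_const _), lintegral_mul_const _ hf, lintegral_const_mul _ hg,
    two_mul]

/-- Two point inequality. -/
lemma lintegral_mul_le_of_two_point {α : Type*} [MeasurableSpace α] (μ : Measure α)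
    {f₁ g₁ f₂ g₂ : α → ℝ≥0∞} (hf₁ : Measurable f₁) (hg₁ : Measurable g₁)
    (hf₂ : Measurable f₂) (hg₂ : Measurable g₂) {s : Set α} (hs : ∀ᵐ x ∂μ, x ∈ s)
    (h : ∀ x ∈ s, ∀ y ∈ s, f₁ x * g₁ y + f₁ y * g₁ x ≤ f₂ x * g₂ y + f₂ y * g₂ x) :
    (∫⁻ x, f₁ x ∂μ) * (∫⁻ x, g₁ x ∂μ) ≤ (∫⁻ x, f₂ x ∂μ) * ∫⁻ x, g₂ x ∂μ := by
  have key : 2 * ((∫⁻ x, f₁ x ∂μ) * ∫⁻ x, g₁ x ∂μ) ≤ 2 * ((∫⁻ x, f₂ x ∂μ) * ∫⁻ x, g₂ x ∂μ) := by
    rw [← lintegral_lintegral_sym μ hf₁ hg₁, ← lintegral_lintegral_sym μ hf₂ hg₂]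
    refine lintegral_mono_ae ?_
    filter_upwards [hs] with x hx
    refine lintegral_mono_ae ?_
    filter_upwards [hs] with y hy
    exact h x hx y hy
  exact (ENNReal.mul_le_mul_iff_right (by norm_num) (by norm_num)).1 key

lemma star_real {n1 n2 d1 d2 N1 N2 D1 D2 : ℝ} (hD1 : 0 < D1) (hD2 : 0 < D2)
    (h1 : N1 * d1 ≤ n1 * D1) (h2 : N2 * d2 ≤ n2 * D2) (h3 : N1 * D2 ≤ N2 * D1)
    (h4 : d1 * D2 ≤ d2 * D1) :
    d1 * N2 + d2 * N1 ≤ n1 * D2 + n2 * D1 := by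
  have h5 : 0 ≤ (N2 * D1 - N1 * D2) * (d2 * D1 - d1 * D2) :=
    mul_nonneg (by linarith) (by linarith)
  have h6 : N1 * d1 * (D2 * D2) ≤ n1 * D1 * (D2 * D2) :=
    mul_le_mul_of_nonneg_right h1 (by positivity)
  have h7 : N2 * d2 * (D1 * D1) ≤ n2 * D2 * (D1 * D1) :=
    mul_le_mul_of_nonneg_right h2 (by positivity)
  have h8 : (d1 * N2 + d2 * N1) * (D1 * D2) ≤ (n1 * D2 + n2 * D1) * (D1 * D2) := by nlinarith
  exact le_of_mul_le_mul_right h8 (by positivity)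

lemma star_ineq {n1 n2 d1 d2 N1 N2 D1 D2 : ℝ≥0∞}
    (a1 : n1 ≠ ⊤) (a2 : n2 ≠ ⊤) (a3 : d1 ≠ ⊤) (a4 : d2 ≠ ⊤)
    (a5 : N1 ≠ ⊤) (a6 : N2 ≠ ⊤) (a7 : D1 ≠ ⊤) (a8 : D2 ≠ ⊤)
    (hD1 : D1 ≠ 0) (hD2 : D2 ≠ 0)
    (h1 : N1 * d1 ≤ n1 * D1) (h2 : N2 * d2 ≤ n2 * D2) (h3 : N1 * D2 ≤ N2 * D1)
    (h4 : d1 * D2 ≤ d2 * D1) :
    d1 * N2 + d2 * N1 ≤ n1 * D2 + n2 * D1 := by
  lift n1 to ℝ≥0 using a1
  lift n2 to ℝ≥0 using a2
  lift d1 to ℝ≥0 using a3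
  lift d2 to ℝ≥0 using a4
  lift N1 to ℝ≥0 using a5
  lift N2 to ℝ≥0 using a6
  lift D1 to ℝ≥0 using a7
  lift D2 to ℝ≥0 using a8
  have hD1' : (0 : ℝ) < D1 := by
    have : D1 ≠ 0 := by simpa using hD1
    positivity
  have hD2' : (0 : ℝ) < D2 := by
    have : D2 ≠ 0 := by simpa using hD2
    positivity
  norm_cast at h1 h2 h3 h4 ⊢
  have := star_real (n1 := n1) (n2 := n2) (d1 := d1) (d2 := d2) (N1 := N1) (N2 := N2) hD1' hD2'
    (by exact_mod_cast h1) (by exact_mod_cast h2) (by exact_mod_cast h3) (by exact_mod_cast h4)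
  exact_mod_cast this

/-- Scaling of an integral over an initial interval. -/
lemma lintegral_Ioo_scale {θ : ℝ} (hθ : 0 < θ) (g : ℝ → ℝ≥0∞) :
    ∫⁻ t in Ioo (0 : ℝ) θ, g t = ENNReal.ofReal θ * ∫⁻ τ in Ioo (0 : ℝ) 1, g (θ * τ) := by
  have h1 : Ioo (0 : ℝ) θ = (fun τ : ℝ => θ * τ) '' Ioo (0 : ℝ) 1 := by
    ext t
    constructor
    · rintro ⟨h0, h1⟩
      refine ⟨t / θ, ⟨div_pos h0 hθ, (div_lt_one hθ).2 h1⟩, ?_⟩
      field_simp
    · rintro ⟨τ, ⟨h0, h1⟩, rfl⟩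
      exact ⟨mul_pos hθ h0, by nlinarith⟩
  rw [h1, lintegral_image_eq_lintegral_abs_deriv_mul (f' := fun _ => θ) measurableSet_Ioo]
  · rw [abs_of_pos hθ, lintegral_const_mul' _ _ ENNReal.ofReal_ne_top]
  · intro x _
    simpa using ((hasDerivAt_id x).const_mul θ).hasDerivWithinAt
  · intro x _ y _ hxy
    exact mul_left_cancel₀ hθ.ne' hxy

/-- Scaling of an integral over the real line. -/
lemma lintegral_real_scale {θ : ℝ} (hθ : 0 < θ) (g : ℝ → ℝ≥0∞) :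
    ∫⁻ t, g t = ENNReal.ofReal θ * ∫⁻ τ, g (θ * τ) := by
  have h1 : (univ : Set ℝ) = (fun τ : ℝ => θ * τ) '' univ := by
    ext t
    simp only [mem_univ, image_univ, mem_range, true_iff]
    exact ⟨t / θ, by field_simp⟩
  rw [← setLIntegral_univ, h1,
    lintegral_image_eq_lintegral_abs_deriv_mul (f' := fun _ => θ) MeasurableSet.univ]
  · rw [abs_of_pos hθ, lintegral_const_mul' _ _ ENNReal.ofReal_ne_top, setLIntegral_univ]
  · intro x _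
    simpa using ((hasDerivAt_id x).const_mul θ)
  · intro x _ y _ hxy
    exact mul_left_cancel₀ hθ.ne' hxy

/-- The cone operator. -/
noncomputable def Tm (k : ℕ) (a : ℝ) (f : ℝ → ℝ≥0∞) (z : ℝ) : ℝ≥0∞ :=
  ∫⁻ τ in Ioo (0 : ℝ) 1, ENNReal.ofReal (τ ^ k) * f (a + τ ^ 2 * (z - a))

lemma measurable_Tm (k : ℕ) (a : ℝ) {f : ℝ → ℝ≥0∞} (hf : Measurable f) :
    Measurable (Tm k a f) := by
  unfold Tm
  refine Measurable.lintegral_prod_right (f := fun (z τ : ℝ) =>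
    ENNReal.ofReal (τ ^ k) * f (a + τ ^ 2 * (z - a))) ?_
  refine Measurable.mul ?_ (hf.comp ?_)
  · exact ENNReal.measurable_ofReal.comp (by fun_prop)
  · fun_prop

lemma measurable_Tm_integrand (k : ℕ) (a z : ℝ) {f : ℝ → ℝ≥0∞} (hf : Measurable f) :
    Measurable (fun τ : ℝ => ENNReal.ofReal (τ ^ k) * f (a + τ ^ 2 * (z - a))) := by
  refine Measurable.mul ?_ (hf.comp ?_)
  · exact ENNReal.measurable_ofReal.comp (by fun_prop)
  · fun_prop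

lemma Tm_le_one (k : ℕ) (a : ℝ) {f : ℝ → ℝ≥0∞} (hf : ∀ y, f y ≤ 1) (z : ℝ) :
    Tm k a f z ≤ 1 := by
  unfold Tm
  calc ∫⁻ τ in Ioo (0 : ℝ) 1, ENNReal.ofReal (τ ^ k) * f (a + τ ^ 2 * (z - a))
      ≤ ∫⁻ _τ in Ioo (0 : ℝ) 1, 1 := by
        refine setLIntegral_mono' measurableSet_Ioo ?_
        intro τ hτ
        have h1 : ENNReal.ofReal (τ ^ k) ≤ 1 := by
          rw [ENNReal.ofReal_le_one]
          exact pow_le_one₀ hτ.1.le hτ.2.le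
        exact mul_le_one' h1 (hf _)
    _ = 1 := by simp

/-- The cone operator after rescaling. -/
lemma Tm_scale (k : ℕ) {a z z' : ℝ} (hz : a < z) (hz' : z ≤ z') :
    ∃ θ : ℝ, 0 < θ ∧ θ ≤ 1 ∧ ∀ f : ℝ → ℝ≥0∞,
      ENNReal.ofReal (θ ^ (k + 1)) * Tm k a f z
        = ∫⁻ τ in Ioo (0 : ℝ) θ, ENNReal.ofReal (τ ^ k) * f (a + τ ^ 2 * (z' - a)) := by
  have h1 : 0 < z - a := by linarith
  have h2 : 0 < z' - a := by linarith
  refine ⟨Real.sqrt ((z - a) / (z' - a)), Real.sqrt_pos.2 (div_pos h1 h2), ?_, ?_⟩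
  · rw [Real.sqrt_le_one, div_le_one h2]; linarith
  · intro f
    set θ := Real.sqrt ((z - a) / (z' - a)) with hθdef
    have hθ : 0 < θ := Real.sqrt_pos.2 (div_pos h1 h2)
    have hθ2 : θ ^ 2 * (z' - a) = z - a := by
      rw [hθdef, Real.sq_sqrt (div_pos h1 h2).le]; field_simp
    rw [lintegral_Ioo_scale hθ, Tm, pow_succ', ENNReal.ofReal_mul hθ.le, mul_assoc,
      ← lintegral_const_mul' _ _ ENNReal.ofReal_ne_top]
    congr 1
    refine lintegral_congr fun τ => ?_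
    rw [← mul_assoc, ← ENNReal.ofReal_mul (by positivity), mul_pow, mul_pow, ← hθ2]
    congr 2
    ring

/-- Monotonicity of the ratio is inherited by the cone operator. -/
lemma Tm_ratio_mono (k : ℕ) {a : ℝ} {N D : ℝ → ℝ≥0∞} (hN : Measurable N) (hD : Measurable D)
    (h : ∀ y y', a ≤ y → y ≤ y' → N y * D y' ≤ N y' * D y) {z z' : ℝ} (hz : a < z)
    (hz' : z ≤ z') :
    Tm k a N z * Tm k a D z' ≤ Tm k a N z' * Tm k a D z := by
  obtain ⟨θ, hθ0, hθ1, hθ⟩ := Tm_scale k hz hz'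
  have hne : ENNReal.ofReal (θ ^ (k + 1)) ≠ 0 := by
    simp only [ne_eq, ENNReal.ofReal_eq_zero, not_le]; positivity
  rw [← ENNReal.mul_le_mul_iff_right hne ENNReal.ofReal_ne_top, ← mul_assoc, hθ N,
    mul_left_comm, hθ D]
  set n : ℝ → ℝ≥0∞ := fun τ => ENNReal.ofReal (τ ^ k) * N (a + τ ^ 2 * (z' - a)) with hn
  set d : ℝ → ℝ≥0∞ := fun τ => ENNReal.ofReal (τ ^ k) * D (a + τ ^ 2 * (z' - a)) with hd
  have mn : Measurable n := measurable_Tm_integrand k a z' hN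
  have md : Measurable d := measurable_Tm_integrand k a z' hD
  have hsub : Ioo (0 : ℝ) θ ⊆ Ioo 0 1 := Ioo_subset_Ioo le_rfl hθ1
  have e1 : ∀ g : ℝ → ℝ≥0∞, ∫⁻ τ in Ioo (0 : ℝ) θ, g τ
      = ∫⁻ τ in Ioo (0 : ℝ) 1, (Iio θ).indicator g τ := by
    intro g
    rw [lintegral_indicator measurableSet_Iio, Measure.restrict_restrict measurableSet_Iio]
    congr 2
    ext τ
    simp only [mem_Ioo, mem_inter_iff, mem_Iio]
    constructor
    · rintro ⟨h0, h1⟩; exact ⟨h1, h0, lt_of_lt_of_le h1 hθ1⟩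
    · rintro ⟨h0, h1, _⟩; exact ⟨h1, h0⟩
  change (∫⁻ τ in Ioo (0 : ℝ) θ, n τ) * (∫⁻ τ in Ioo (0 : ℝ) 1, d τ)
    ≤ (∫⁻ τ in Ioo (0 : ℝ) 1, n τ) * ∫⁻ τ in Ioo (0 : ℝ) θ, d τ
  rw [e1 n, e1 d]
  have hnd : ∀ x ∈ Ioo (0 : ℝ) 1, ∀ y ∈ Ioo (0 : ℝ) 1, x ≤ y → n x * d y ≤ n y * d x := by
    intro x hx y hy hxy
    have h2 : 0 ≤ z' - a := by linarith
    have := h (a + x ^ 2 * (z' - a)) (a + y ^ 2 * (z' - a)) (by nlinarith [sq_nonneg x])
      (by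
        have : x ^ 2 ≤ y ^ 2 := pow_le_pow_left₀ hx.1.le hxy 2
        nlinarith)
    simp only [hn, hd]
    calc _ = (ENNReal.ofReal (x ^ k) * ENNReal.ofReal (y ^ k)) *
          (N (a + x ^ 2 * (z' - a)) * D (a + y ^ 2 * (z' - a))) := by ring
      _ ≤ (ENNReal.ofReal (x ^ k) * ENNReal.ofReal (y ^ k)) *
          (N (a + y ^ 2 * (z' - a)) * D (a + x ^ 2 * (z' - a))) := by gcongr
      _ = _ := by ring
  refine lintegral_mul_le_of_two_point _ (mn.indicator measurableSet_Iio) md mn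
    (md.indicator measurableSet_Iio) (ae_restrict_mem measurableSet_Ioo) ?_
  intro x hx y hy
  by_cases h1 : x < θ <;> by_cases h2 : y < θ
  · simp [indicator, h1, h2]
  · simp only [indicator, mem_Iio, h1, h2, if_true, if_false, zero_mul, mul_zero, add_zero,
      zero_add]
    exact hnd x hx y hy (by linarith)
  · simp only [indicator, mem_Iio, h1, h2, if_true, if_false, zero_mul, mul_zero, add_zero,
      zero_add]
    exact hnd y hy x hx (by linarith)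
  · simp [indicator, h1, h2]

end Pool.Agent.MP_278f54_co.H42
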